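import Pool.Agent.H252.UQ.Iface

/-!
UQ-FAI (owner helper252): tracial states on simple C*-algebras are faithful and bounded.
-/

set_option autoImplicit false

open scoped ComplexConjugate

noncomputable section

namespace Pool.Agent.H51.UQ

open Pool.Agent.H923R2.FP Pool.Agent.H252.UQ

variable {A : Type} [CStarAlgebra A]

/-- a square root of `M - h` -/
theorem exists_sq (h : A) (hh : IsSelfAdjoint h) (M : ℝ) (hM : ‖h‖ ≤ M) :
    ∃ z : A, star z * z = (M : ℂ) • (1 : A) - h := by
  have hc : ContinuousOn (fun t : ℝ => Real.sqrt (M - t)) (spectrum ℝ h) := by fun_prop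
  refine ⟨cfc (fun t : ℝ => Real.sqrt (M - t)) h, ?_⟩
  have hs : IsSelfAdjoint (cfc (fun t : ℝ => Real.sqrt (M - t)) h) := cfc_predicate _ _
  rw [hs.star_eq, ← cfc_mul _ _ h hc hc]
  have hspec : ∀ t ∈ spectrum ℝ h, t ≤ M := by
    intro t ht
    have h1 : ‖t‖ ≤ ‖h‖ := by
      have := spectrum.norm_le_norm_mul_of_mem ht
      rcases subsingleton_or_nontrivial A with hA | hA
      · exact absurd ht (by simp)
      · rwa [norm_one, mul_one] at this
    exact (le_abs_self t).trans (h1.trans hM)
  rw [cfc_congr (g := fun t : ℝ => M - t) (fun t ht => by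
    show Real.sqrt (M - t) * Real.sqrt (M - t) = M - t
    exact Real.mul_self_sqrt (by linarith [hspec t ht]))]
  rw [cfc_sub (fun _ : ℝ => M) (fun t : ℝ => t) h (by fun_prop) (by fun_prop), cfc_const M h,
    cfc_id' ℝ h]
  congr 1
  rw [Algebra.algebraMap_eq_smul_one]
  exact (Complex.coe_smul M (1:A)).symm ▸ rfl

variable {τ : A →ₗ[ℂ] ℂ}

theorem str (hτ : IsTracialState τ) (x : A) : τ (star x) = conj (τ x) := by
  have h0 := (hτ.pos x).2
  have h1 := (hτ.pos (x + 1)).2
  have h2 := (hτ.pos (x + Complex.I • (1:A))).2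
  have e1 : star (x + 1) * (x + 1) = star x * x + star x + x + 1 := by
    rw [star_add, star_one]; noncomm_ring
  have e2 : star (x + Complex.I • (1:A)) * (x + Complex.I • (1:A)) =
      star x * x + Complex.I • star x - Complex.I • x + 1 := by
    rw [star_add, star_smul, star_one, Complex.star_def, Complex.conj_I]
    rw [add_mul, mul_add, mul_add, mul_smul_comm, smul_mul_assoc, smul_mul_assoc, mul_one, one_mul,
      mul_smul_comm, mul_one, smul_smul]
    have : -Complex.I * Complex.I = 1 := by rw [neg_mul, Complex.I_mul_I, neg_neg]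
    rw [this, one_smul, neg_smul]
    abel
  rw [e1] at h1
  rw [e2] at h2
  simp only [map_add, map_sub, map_smul, hτ.one, Complex.add_im, Complex.one_im, h0, smul_eq_mul,
    Complex.sub_im, Complex.mul_im, Complex.I_re, Complex.I_im] at h1 h2
  apply Complex.ext
  · rw [Complex.conj_re]; linarith
  · rw [Complex.conj_im]; linarith

theorem cs (hτ : IsTracialState τ) (x : A) : ‖τ x‖ ^ 2 ≤ (τ (star x * x)).re := by
  have h := (hτ.pos (x - (τ x) • (1:A))).1
  have e : star (x - (τ x) • (1:A)) * (x - (τ x) • (1:A)) =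
      star x * x - (τ x) • star x - (conj (τ x)) • x + (conj (τ x) * τ x) • 1 := by
    rw [star_sub, star_smul, star_one, Complex.star_def, sub_mul, mul_sub, mul_sub, mul_smul_comm,
      smul_mul_assoc, smul_mul_assoc, mul_one, one_mul, mul_smul_comm, mul_one, smul_smul]
    abel
  rw [e] at h
  simp only [map_add, map_sub, map_smul, smul_eq_mul, hτ.one, str hτ, mul_one] at h
  have e3 : τ x * conj (τ x) = ((‖τ x‖ ^ 2 : ℝ) : ℂ) := by
    rw [Complex.mul_conj, Complex.normSq_eq_norm_sq]
  have e4 : conj (τ x) * τ x = ((‖τ x‖ ^ 2 : ℝ) : ℂ) := by rw [mul_comm, e3]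
  rw [e3, e4, Complex.add_re, Complex.sub_re, Complex.sub_re, Complex.ofReal_re] at h
  linarith

/-- `τ(x* a* a x) ≤ ‖a‖² τ(x* x)` -/
theorem mul_bd (hτ : IsTracialState τ) (a x : A) :
    (τ (star (a * x) * (a * x))).re ≤ ‖a‖ ^ 2 * (τ (star x * x)).re := by
  obtain ⟨z, hz⟩ := exists_sq (star a * a) (IsSelfAdjoint.star_mul_self a) (‖a‖ ^ 2)
    (by rw [CStarRing.norm_star_mul_self]; exact le_of_eq (sq _).symm)
  have h := (hτ.pos (z * x)).1
  have e : star (z * x) * (z * x) = ((‖a‖ ^ 2 : ℝ) : ℂ) • (star x * x) - star (a * x) * (a * x) := by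
    rw [star_mul, star_mul]
    calc star x * star z * (z * x) = star x * (star z * z) * x := by noncomm_ring
      _ = star x * (((‖a‖ ^ 2 : ℝ) : ℂ) • (1 : A) - star a * a) * x := by rw [hz]
      _ = _ := by
        rw [mul_sub, sub_mul, mul_smul_comm, mul_one, smul_mul_assoc]
        noncomm_ring
  rw [e, map_sub, map_smul, smul_eq_mul, Complex.sub_re, Complex.re_ofReal_mul] at h
  linarith

theorem bound (hτ : IsTracialState τ) (x : A) : ‖τ x‖ ≤ ‖x‖ := by
  have h1 := cs hτ x
  have h2 := mul_bd hτ x 1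
  rw [mul_one, star_one, one_mul, hτ.one, Complex.one_re, mul_one] at h2
  exact (abs_le_of_sq_le_sq' (h1.trans h2) (norm_nonneg _)).2

theorem sq_add (hτ : IsTracialState τ) {x y : A} (hx : (τ (star x * x)).re = 0)
    (hy : (τ (star y * y)).re = 0) : (τ (star (x + y) * (x + y))).re = 0 := by
  have h1 := (hτ.pos (x + y)).1
  have h2 := (hτ.pos (x - y)).1
  have e : star (x + y) * (x + y) + star (x - y) * (x - y) =
      (star x * x + star x * x) + (star y * y + star y * y) := by
    rw [star_add, star_sub]; noncomm_ring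
  have e2 := congrArg (fun w => (τ w).re) e
  simp only [map_add, Complex.add_re, hx, hy] at e2
  linarith

theorem sq_star (hτ : IsTracialState τ) {x : A} (hx : (τ (star x * x)).re = 0) :
    (τ (star (star x) * star x)).re = 0 := by
  rw [star_star, hτ.comm]; exact hx

theorem sq_mul_left (hτ : IsTracialState τ) (a : A) {x : A} (hx : (τ (star x * x)).re = 0) :
    (τ (star (a * x) * (a * x))).re = 0 := by
  have h1 := mul_bd hτ a x
  rw [hx, mul_zero] at h1
  exact le_antisymm h1 (hτ.pos _).1

theorem sq_mul_right (hτ : IsTracialState τ) {x : A} (a : A) (hx : (τ (star x * x)).re = 0) :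
    (τ (star (x * a) * (x * a))).re = 0 := by
  have h := sq_star hτ (sq_mul_left hτ (star a) (sq_star hτ hx))
  rwa [star_mul, star_star, star_star] at h

theorem s_FAI : S_FAI := by
  intro A _ τ hA hτ
  refine ⟨hτ.one, hτ.comm, str hτ, fun x => (hτ.pos x).1, ?_, bound hτ⟩
  let I : TwoSidedIdeal A := TwoSidedIdeal.mk' {x : A | (τ (star x * x)).re = 0}
    (by show (τ (star 0 * 0)).re = 0; simp)
    (fun {x y} hx hy => sq_add hτ hx hy)
    (fun {x} hx => by
      show (τ (star (-x) * (-x))).re = 0
      rw [star_neg, neg_mul_neg]; exact hx)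
    (fun {a x} hx => sq_mul_left hτ a hx)
    (fun {x a} hx => sq_mul_right hτ a hx)
  have hmem : ∀ x : A, x ∈ I ↔ (τ (star x * x)).re = 0 := fun x => by
    show x ∈ TwoSidedIdeal.mk' _ _ _ _ _ _ ↔ _
    rw [TwoSidedIdeal.mem_mk']
    rfl
  have hcont : Continuous τ :=
    AddMonoidHomClass.continuous_of_bound τ 1 (fun x => by rw [one_mul]; exact bound hτ x)
  have hcl : IsClosed (I : Set A) := by
    have e : (I : Set A) = (fun x : A => (τ (star x * x)).re) ⁻¹' {0} := by
      ext x
      exact hmem x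
    rw [e]
    refine IsClosed.preimage ?_ isClosed_singleton
    exact Complex.continuous_re.comp (hcont.comp (by fun_prop))
  intro x hx
  rcases hA.2 I hcl with h | h
  · have h1 : x ∈ I := (hmem x).2 hx
    rw [h] at h1
    exact (TwoSidedIdeal.mem_bot A).1 h1
  · exfalso
    have h1 : (1 : A) ∈ I := by rw [h]; trivial
    rw [hmem, star_one, one_mul, hτ.one, Complex.one_re] at h1
    norm_num at h1

end Pool.Agent.H51.UQ
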