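import Mathlib

/-! Elementary facts on the cube used in the construction for MP_e6c71b_co. -/

namespace Pool.Agent.H51.Few

open Finset

/-- Number of coordinates where two vectors agree. -/
def agr {m : ℕ} (u v : Fin m → ZMod 2) : ℕ := ∑ i, if u i = v i then 1 else 0

lemma agr_cons {m : ℕ} (a b : ZMod 2) (u v : Fin m → ZMod 2) :
    agr (Fin.cons a u : Fin (m+1) → ZMod 2) (Fin.cons b v) = (if a = b then 1 else 0) + agr u v := by
  simp only [agr, Fin.sum_univ_succ, Fin.cons_zero, Fin.cons_succ]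

lemma agr_comm {m : ℕ} (u v : Fin m → ZMod 2) : agr u v = agr v u := by
  simp [agr, eq_comm]

lemma agr_self {m : ℕ} (u : Fin m → ZMod 2) : agr u u = m := by
  simp [agr]

lemma agr_three {m : ℕ} (u v w : Fin m → ZMod 2) : m ≤ agr u v + agr v w + agr u w := by
  have h : ∀ a b c : ZMod 2, 1 ≤ (if a = b then 1 else 0) + (if b = c then 1 else 0) +
      (if a = c then 1 else 0 : ℕ) := by decide
  calc m = ∑ _i : Fin m, 1 := by simp
    _ ≤ ∑ i : Fin m, ((if u i = v i then 1 else 0) + (if v i = w i then 1 else 0) +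
      (if u i = w i then 1 else 0 : ℕ)) := Finset.sum_le_sum (fun i _ => h _ _ _)
    _ = _ := by simp [agr, Finset.sum_add_distrib]

/-- Section of a family in the first coordinate. -/
def sec {m : ℕ} (A : Finset (Fin (m+1) → ZMod 2)) (b : ZMod 2) : Finset (Fin m → ZMod 2) :=
  univ.filter (fun v => (Fin.cons b v : Fin (m+1) → ZMod 2) ∈ A)

lemma card_sec {m : ℕ} (A : Finset (Fin (m+1) → ZMod 2)) :
    A.card = (sec A 0).card + (sec A 1).card := by
  have h1 : A.card = ∑ w : Fin (m+1) → ZMod 2, if w ∈ A then 1 else 0 := by simp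
  have h2 : (∑ w : Fin (m+1) → ZMod 2, if w ∈ A then 1 else 0)
      = ∑ p : ZMod 2 × (Fin m → ZMod 2),
        if (Fin.cons p.1 p.2 : Fin (m+1) → ZMod 2) ∈ A then 1 else 0 := by
    symm
    exact Fintype.sum_equiv (Fin.consEquiv (fun _ : Fin (m+1) => ZMod 2)) _ _ (fun p => rfl)
  rw [h1, h2, Fintype.sum_prod_type]
  have h3 : ∀ f : ZMod 2 → ℕ, ∑ b, f b = f 0 + f 1 := fun f => Fin.sum_univ_two f
  rw [h3]
  simp [sec]

lemma cube_bound (m : ℕ) : ∀ (d : ℕ) (A B : Finset (Fin m → ZMod 2)),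
    (∀ u ∈ A, ∀ v ∈ B, d ≤ agr u v) → (A.card : ℝ) * B.card * 2 ^ d ≤ (9 / 2) ^ m := by
  induction m with
  | zero =>
    intro d A B h
    by_cases hA : A = ∅
    · simp [hA]
    by_cases hB : B = ∅
    · simp [hB]
    obtain ⟨u, hu⟩ := Finset.nonempty_iff_ne_empty.2 hA
    obtain ⟨v, hv⟩ := Finset.nonempty_iff_ne_empty.2 hB
    have hd := h u hu v hv
    have hd0 : d = 0 := by simpa [agr] using hd
    subst hd0
    have h1 : (A.card : ℝ) ≤ 1 := by
      have := Finset.card_le_univ A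
      simp at this
      exact_mod_cast this
    have h2 : (B.card : ℝ) ≤ 1 := by
      have := Finset.card_le_univ B
      simp at this
      exact_mod_cast this
    have h3 : (0:ℝ) ≤ A.card := by positivity
    have h4 : (0:ℝ) ≤ B.card := by positivity
    simp
    nlinarith
  | succ m ih =>
    intro d A B h
    have hmem : ∀ (A : Finset (Fin (m+1) → ZMod 2)) b v, v ∈ sec A b ↔
        (Fin.cons b v : Fin (m+1) → ZMod 2) ∈ A := by
      intro A b v; simp [sec]
    have hdiff : ∀ b b' : ZMod 2, b ≠ b' →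
        ((sec A b).card : ℝ) * (sec B b').card * 2 ^ d ≤ (9/2) ^ m := by
      intro b b' hb
      apply ih
      intro u hu v hv
      have := h _ ((hmem _ _ _).1 hu) _ ((hmem _ _ _).1 hv)
      rw [agr_cons, if_neg hb] at this
      simpa using this
    have hsame : ∀ b : ZMod 2,
        ((sec A b).card : ℝ) * (sec B b).card * 2 ^ d ≤ 2 * (9/2) ^ m := by
      intro b
      have h1 : ((sec A b).card : ℝ) * (sec B b).card * 2 ^ (d-1) ≤ (9/2) ^ m := by
        apply ih
        intro u hu v hv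
        have := h _ ((hmem _ _ _).1 hu) _ ((hmem _ _ _).1 hv)
        rw [agr_cons, if_pos rfl] at this
        omega
      have h2 : (2:ℝ) ^ d ≤ 2 * 2 ^ (d-1) := by
        rcases d with _ | d
        · norm_num
        · rw [pow_succ]; simp; linarith
      calc ((sec A b).card : ℝ) * (sec B b).card * 2 ^ d
          ≤ ((sec A b).card : ℝ) * (sec B b).card * (2 * 2 ^ (d-1)) :=
            mul_le_mul_of_nonneg_left h2 (by positivity)
        _ = 2 * (((sec A b).card : ℝ) * (sec B b).card * 2 ^ (d-1)) := by ring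
        _ ≤ _ := by linarith
    rw [card_sec A, card_sec B]
    push_cast
    set a0 : ℝ := ((sec A 0).card : ℝ)
    set a1 : ℝ := ((sec A 1).card : ℝ)
    set b0 : ℝ := ((sec B 0).card : ℝ)
    set b1 : ℝ := ((sec B 1).card : ℝ)
    set P : ℝ := (9/2) ^ m
    have hP : 0 < P := by positivity
    set E : ℝ := 2 ^ d
    have hE : 0 < E := by positivity
    have ha0 : 0 ≤ a0 := by positivity
    have ha1 : 0 ≤ a1 := by positivity
    have hb0 : 0 ≤ b0 := by positivity
    have hb1 : 0 ≤ b1 := by positivity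
    have q01 : a0 * b1 * E ≤ P := hdiff 0 1 (by decide)
    have q10 : a1 * b0 * E ≤ P := hdiff 1 0 (by decide)
    have p00 : a0 * b0 * E ≤ 2 * P := hsame 0
    have p11 : a1 * b1 * E ≤ 2 * P := hsame 1
    have hprod : (a0 * b0 * E) * (a1 * b1 * E) ≤ P * P := by
      have : (a0 * b0 * E) * (a1 * b1 * E) = (a0 * b1 * E) * (a1 * b0 * E) := by ring
      rw [this]
      exact mul_le_mul q01 q10 (by positivity) hP.le
    have hsum : a0 * b0 * E + a1 * b1 * E ≤ 5 / 2 * P := by
      have h1 : 0 ≤ (2 * P - a0 * b0 * E) * (2 * P - a1 * b1 * E) :=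
        mul_nonneg (by linarith) (by linarith)
      have h2 : 2 * P * (a0 * b0 * E + a1 * b1 * E) ≤ 2 * P * (5 / 2 * P) := by nlinarith
      exact le_of_mul_le_mul_left h2 (by positivity)
    have hfin : (a0 + a1) * (b0 + b1) * E =
        (a0 * b0 * E + a1 * b1 * E) + a0 * b1 * E + a1 * b0 * E := by ring
    rw [hfin, pow_succ]
    linarith

/-- A family in the cube of dimension `3j` whose members pairwise agree in at least
`j` coordinates has at most `(27/4)^j` members. -/
lemma card_le_of_agr (j : ℕ) (A : Finset (Fin (3*j) → ZMod 2))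
    (h : ∀ u ∈ A, ∀ v ∈ A, j ≤ agr u v) : (A.card : ℝ) ≤ (27/4) ^ j := by
  have h1 := cube_bound (3*j) j A A h
  have h2 : ((9:ℝ)/2) ^ (3*j) = ((27/4) ^ j) ^ 2 * 2 ^ j := by
    calc ((9:ℝ)/2) ^ (3*j) = (((9:ℝ)/2) ^ 3) ^ j := pow_mul _ _ _
      _ = (((27:ℝ)/4) ^ 2 * 2) ^ j := by norm_num
      _ = ((27/4) ^ j) ^ 2 * 2 ^ j := by rw [mul_pow, ← pow_mul, ← pow_mul, mul_comm j 2]
  rw [h2] at h1
  have h3 : (A.card : ℝ) * A.card ≤ ((27/4) ^ j) ^ 2 := by
    exact le_of_mul_le_mul_right h1 (by positivity)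
  have h4 : (A.card : ℝ) ^ 2 ≤ ((27/4) ^ j) ^ 2 := by rw [pow_two]; exact h3
  exact (pow_le_pow_iff_left₀ (by positivity) (by positivity) (by norm_num)).1 h4

end Pool.Agent.H51.Few
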