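import Pool.Agent.H51.Cube

/-! Cyclic-group facts used in the construction for MP_e6c71b_co. -/

namespace Pool.Agent.H51.Few

open Finset

/-- Residues modulo `M` of the integers in `[a, b)`. -/
def sh (M a b : ℕ) : Finset (ZMod M) := (Finset.Ico a b).image (fun d : ℕ => (d : ZMod M))

lemma mem_sh {M a b : ℕ} {z : ZMod M} : z ∈ sh M a b ↔ ∃ d : ℕ, a ≤ d ∧ d < b ∧ (d : ZMod M) = z := by
  simp [sh, and_assoc]

lemma int_zero_of {M : ℕ} {z : ℤ} (h : (z : ZMod M) = 0) (h1 : -(M:ℤ) < z) (h2 : z < M) : z = 0 := by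
  have h3 : (M : ℤ) ∣ z := (ZMod.intCast_zmod_eq_zero_iff_dvd z M).1 h
  exact Int.eq_zero_of_abs_lt_dvd h3 (abs_lt.2 ⟨h1, h2⟩)

lemma card_sh {M a b : ℕ} (h : b ≤ a + M) : (sh M a b).card = b - a := by
  unfold sh
  rw [Finset.card_image_of_injOn]
  · simp
  · intro d hd d' hd' hdd
    simp only [Finset.coe_Ico, Set.mem_Ico] at hd hd'
    have h1 : (((d:ℤ) - (d':ℤ) : ℤ) : ZMod M) = 0 := by
      push_cast
      simp only at hdd
      rw [hdd]; ring
    have h2 := int_zero_of h1 (by omega) (by omega)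
    omega

lemma sum_free {q M : ℕ} (hM : 3 * q ≤ M + 1) {x y z : ZMod M}
    (hx : x ∈ sh M q (2*q)) (hy : y ∈ sh M q (2*q)) (hz : z ∈ sh M q (2*q)) : x + y ≠ z := by
  intro h
  obtain ⟨a, ha1, ha2, rfl⟩ := mem_sh.1 hx
  obtain ⟨b, hb1, hb2, rfl⟩ := mem_sh.1 hy
  obtain ⟨c, hc1, hc2, rfl⟩ := mem_sh.1 hz
  have h1 : (((a:ℤ) + b - c : ℤ) : ZMod M) = 0 := by
    push_cast; rw [h]; ring
  have h2 := int_zero_of h1 (by omega) (by omega)
  omega

lemma diff_not_far {q M : ℕ} (hM : q ≤ M) {x y z : ZMod M}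
    (hx : x ∈ sh M q (2*q)) (hy : y ∈ sh M q (2*q)) (hz : z ∈ sh M q (M-q+1)) : x - y ≠ z := by
  intro h
  obtain ⟨a, ha1, ha2, rfl⟩ := mem_sh.1 hx
  obtain ⟨b, hb1, hb2, rfl⟩ := mem_sh.1 hy
  obtain ⟨c, hc1, hc2, rfl⟩ := mem_sh.1 hz
  have h1 : (((a:ℤ) - b - c : ℤ) : ZMod M) = 0 := by
    push_cast; rw [h]; ring
  have h2 := int_zero_of h1 (by omega) (by omega)
  omega

lemma far_neg {q M : ℕ} (hM : q ≤ M) {z : ZMod M} (hz : z ∈ sh M q (M-q+1)) :
    -z ∈ sh M q (M-q+1) := by
  obtain ⟨c, hc1, hc2, rfl⟩ := mem_sh.1 hz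
  refine mem_sh.2 ⟨M - c, by omega, by omega, ?_⟩
  rw [Nat.cast_sub (by omega)]
  simp

/-- A set of residues without two at cyclic distance at least `q` has at most `q` elements. -/
lemma katona {q M : ℕ} (hq : 1 ≤ q) (hM : 2 * q ≤ M) (A : Finset (ZMod M))
    (hA : ∀ x ∈ A, ∀ y ∈ A, y - x ∉ sh M q (M-q+1)) : A.card ≤ q := by
  have : NeZero M := ⟨by omega⟩
  rcases A.eq_empty_or_nonempty with rfl | ⟨x0, hx0⟩
  · simp
  have key : ∀ y ∈ A, (y - x0).val < q ∨ M - q < (y - x0).val := by
    intro y hy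
    by_contra hcon
    push Not at hcon
    exact hA x0 hx0 y hy (mem_sh.2 ⟨(y-x0).val, hcon.1, by omega, by simp⟩)
  have hlt : ∀ y : ZMod M, (y - x0).val < M := fun y => ZMod.val_lt _
  have hmix : ∀ y ∈ A, ∀ y' ∈ A, (y' - x0).val = (y - x0).val + (M - q) → False := by
    intro y hy y' hy' hv
    apply hA y hy y' hy'
    refine mem_sh.2 ⟨M - q, by omega, by omega, ?_⟩
    have h1 : ((y' - x0).val : ZMod M) = y' - x0 := by simp
    have h2 : ((y - x0).val : ZMod M) = y - x0 := by simp
    have h3 : y' - y = ((y' - x0).val : ZMod M) - ((y - x0).val : ZMod M) := by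
      rw [h1, h2]; ring
    rw [h3, hv]
    push_cast
    ring
  have hinj : Set.InjOn (fun y : ZMod M => if (y - x0).val < q then (y-x0).val
      else (y-x0).val - (M - q)) (A : Set (ZMod M)) := by
    intro y hy y' hy' h
    have hy1 : y ∈ A := hy
    have hy2 : y' ∈ A := hy'
    have e1 := key y hy1
    have e2 := key y' hy2
    have l1 := hlt y
    have l2 := hlt y'
    simp only at h
    have hval : (y - x0).val = (y' - x0).val := by
      split_ifs at h with c1 c2 c2
      · exact h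
      · exact (hmix y hy1 y' hy2 (by omega)).elim
      · exact (hmix y' hy2 y hy1 (by omega)).elim
      · omega
    have := ZMod.val_injective M hval
    exact sub_left_injective this
  have := Finset.card_le_card_of_injOn (t := Finset.range q) _ (by
    intro y hy
    have hy1 : y ∈ A := hy
    have e1 := key y hy1
    have l1 := hlt y
    simp only [Finset.coe_range, Set.mem_Iio]
    split_ifs with c1
    · exact c1
    · omega) hinj
  simpa using this

/-- Size of a set independent in the tensor product of the far graph on `ZMod M` and the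
graph on the cube joining vectors agreeing in fewer than `j` of the `3j` coordinates. -/
lemma fiber_bound {q M j : ℕ} (hq : 1 ≤ q) (hM : 2 * q ≤ M)
    (J : Finset ((Fin (3*j) → ZMod 2) × ZMod M))
    (hJ : ∀ p ∈ J, ∀ p' ∈ J, p'.2 - p.2 ∈ sh M q (M-q+1) → ¬ (agr p.1 p'.1 < j)) :
    (J.card : ℝ) ≤ q * 8 ^ j + M * (2 ^ M * (27/4) ^ j) := by
  have : NeZero M := ⟨by omega⟩
  classical
  let Ju : (Fin (3*j) → ZMod 2) → Finset (ZMod M) := fun u => univ.filter (fun x => (u, x) ∈ J)
  have hcard : J.card = ∑ u, (Ju u).card := by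
    have h1 : J.card = ∑ p : (Fin (3*j) → ZMod 2) × ZMod M, if p ∈ J then 1 else 0 := by simp
    rw [h1, Fintype.sum_prod_type]
    apply Finset.sum_congr rfl
    intro u _
    simp [Ju]
  let Big : Finset (Fin (3*j) → ZMod 2) := univ.filter (fun u => q < (Ju u).card)
  have hJle : ∀ u, (Ju u).card ≤ q + M * (if u ∈ Big then 1 else 0) := by
    intro u
    by_cases hu : u ∈ Big
    · rw [if_pos hu]
      have := Finset.card_le_univ (Ju u)
      rw [ZMod.card] at this
      omega
    · rw [if_neg hu]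
      have : ¬ (q < (Ju u).card) := by simpa [Big] using hu
      omega
  have hsum : J.card ≤ 8 ^ j * q + M * Big.card := by
    rw [hcard]
    calc ∑ u, (Ju u).card ≤ ∑ u, (q + M * (if u ∈ Big then 1 else 0)) :=
          Finset.sum_le_sum (fun u _ => hJle u)
      _ = 8 ^ j * q + M * Big.card := by
          rw [Finset.sum_add_distrib, ← Finset.mul_sum]
          simp [ZMod.card, pow_mul]
  have hclass : ∀ S : Finset (ZMod M), ((Big.filter (fun u => Ju u = S)).card : ℝ) ≤ (27/4) ^ j := by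
    intro S
    by_cases hS : (Big.filter (fun u => Ju u = S)) = ∅
    · rw [hS]; simp only [Finset.card_empty, Nat.cast_zero]; positivity
    obtain ⟨u0, hu0⟩ := Finset.nonempty_iff_ne_empty.2 hS
    have hu0' : q < (Ju u0).card ∧ Ju u0 = S := by simpa [Big] using hu0
    have hSc : q < S.card := by rw [← hu0'.2]; exact hu0'.1
    obtain ⟨x, hx, y, hy, hxy⟩ : ∃ x ∈ S, ∃ y ∈ S, y - x ∈ sh M q (M-q+1) := by
      by_contra hcon
      push Not at hcon
      exact absurd (katona hq hM S hcon) (by omega)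
    apply card_le_of_agr
    intro u hu v hv
    have hu' : q < (Ju u).card ∧ Ju u = S := by simpa [Big] using hu
    have hv' : q < (Ju v).card ∧ Ju v = S := by simpa [Big] using hv
    have hux : (u, x) ∈ J := by
      have : x ∈ Ju u := by rw [hu'.2]; exact hx
      simpa [Ju] using this
    have hvy : (v, y) ∈ J := by
      have : y ∈ Ju v := by rw [hv'.2]; exact hy
      simpa [Ju] using this
    have := hJ _ hux _ hvy hxy
    simp only at this
    omega
  have hBig : (Big.card : ℝ) ≤ 2 ^ M * (27/4) ^ j := by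
    have h1 : Big.card = ∑ S : Finset (ZMod M), (Big.filter (fun u => Ju u = S)).card := by
      rw [← Finset.card_eq_sum_card_fiberwise]
      intro u _
      simp
    rw [h1]
    push_cast
    calc ∑ S : Finset (ZMod M), ((Big.filter (fun u => Ju u = S)).card : ℝ)
        ≤ ∑ _S : Finset (ZMod M), ((27:ℝ)/4) ^ j := Finset.sum_le_sum (fun S _ => hclass S)
      _ = 2 ^ M * (27/4) ^ j := by
          simp [ZMod.card]
  have h2 : (J.card : ℝ) ≤ 8 ^ j * q + M * Big.card := by exact_mod_cast hsum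
  have h3 : (M : ℝ) * Big.card ≤ M * (2 ^ M * (27/4) ^ j) :=
    mul_le_mul_of_nonneg_left hBig (by positivity)
  linarith

end Pool.Agent.H51.Few
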