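import Pool.Agent.H51.Gadget

/-! Definitions and the transfer lemma for MP_e6c71b_co. -/

namespace Pool.Agent.H51.Few

open Finset

open Classical in
/-- The maximum multiplicity `f(G)` of a value in the degree sequence of `G`. -/
noncomputable def maxMult {V : Type*} [Fintype V] (G : SimpleGraph V) : ℕ :=
  univ.sup (fun v => (univ.filter (fun w => G.degree w = G.degree v)).card)

open Classical in
/-- `G` is triangle-free, has minimum degree at least one, and `f(G) ≤ k`. -/
def Admissible {V : Type*} [Fintype V] (k : ℕ) (G : SimpleGraph V) : Prop :=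
  G.CliqueFree 3 ∧ 1 ≤ G.minDegree ∧ maxMult G ≤ k

open Classical in
lemma transfer {V : Type*} [Fintype V] [Nonempty V] (Adj : V → V → Prop)
    (hsymm : ∀ v w, Adj v w → Adj w v) (hirr : ∀ v, ¬ Adj v v)
    (htri : ∀ u v w, Adj u v → Adj v w → Adj u w → False)
    (code : V → ℕ) (hcode : Function.Injective code) (K k : ℕ) (hK : 1 ≤ K) (hk : 0 < k)
    (hdeg : ∀ v, (univ.filter (fun w => Adj v w)).card = K + code v / k)
    (b : ℝ) (hind : ∀ I : Finset V, (∀ v ∈ I, ∀ w ∈ I, ¬ Adj v w) → (I.card : ℝ) ≤ b)
    {n : ℕ} (hn : Fintype.card V = n) :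
    ∃ G : SimpleGraph (Fin n), Admissible k G ∧ (G.indepNum : ℝ) ≤ b := by
  subst hn
  let e : Fin (Fintype.card V) ≃ V := (Fintype.equivFin V).symm
  let G : SimpleGraph (Fin (Fintype.card V)) :=
    { Adj := fun i j => Adj (e i) (e j)
      symm := ⟨fun i j h => hsymm _ _ h⟩
      loopless := ⟨fun i h => hirr _ h⟩ }
  have hGadj : ∀ i j, G.Adj i j ↔ Adj (e i) (e j) := fun i j => Iff.rfl
  have hGdeg : ∀ i, G.degree i = K + code (e i) / k := by
    intro i
    rw [← hdeg, ← SimpleGraph.card_neighborFinset_eq_degree]
    apply Finset.card_equiv e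
    intro j
    rw [SimpleGraph.mem_neighborFinset, hGadj]
    simp
  refine ⟨G, ⟨?_, ?_, ?_⟩, ?_⟩
  · intro s hs
    rw [SimpleGraph.is3Clique_iff] at hs
    obtain ⟨a, b, c, hab, hac, hbc, -⟩ := hs
    exact htri _ _ _ hab hbc hac
  · have : Nonempty (Fin (Fintype.card V)) := ⟨e.symm (Classical.arbitrary V)⟩
    apply SimpleGraph.le_minDegree_of_forall_le_degree
    intro v
    rw [hGdeg]
    exact le_trans hK (Nat.le_add_right _ _)
  · unfold maxMult
    apply Finset.sup_le
    intro v _
    have : (univ.filter (fun w => G.degree w = G.degree v)).card ≤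
        (Finset.Ico (k * (code (e v) / k)) (k * (code (e v) / k) + k)).card := by
      apply Finset.card_le_card_of_injOn (fun w => code (e w))
      · intro w hw
        simp only [coe_filter, mem_univ, true_and, Set.mem_ofPred_eq] at hw
        rw [hGdeg, hGdeg] at hw
        have h1 : code (e w) / k = code (e v) / k := by omega
        simp only [coe_Ico, Set.mem_Ico]
        rw [← h1]
        constructor
        · exact Nat.mul_div_le _ _
        · exact Nat.lt_mul_div_succ _ hk
      · intro w _ w' _ h
        exact e.injective (hcode h)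
    simpa using this
  · obtain ⟨s, hs⟩ := G.exists_isNIndepSet_indepNum
    rw [← hs.card_eq, ← Finset.card_map e.toEmbedding]
    apply hind
    intro v hv w hw hvw
    rw [Finset.mem_map] at hv hw
    obtain ⟨i, hi, rfl⟩ := hv
    obtain ⟨j, hj, rfl⟩ := hw
    have hne : i ≠ j := by
      rintro rfl
      exact hirr _ hvw
    exact hs.isIndepSet hi hj hne hvw

/-- The half graph, for `k = 2`. -/
lemma exists_two (L : ℕ) (hL : 1 ≤ L) :
    ∃ G : SimpleGraph (Fin (2 * L)), Admissible 2 G ∧ (G.indepNum : ℝ) ≤ L := by
  classical
  have : Nonempty (Bool × Fin L) := ⟨(true, ⟨0, hL⟩)⟩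
  apply transfer (V := Bool × Fin L) (fun v w => v.1 ≠ w.1 ∧ L ≤ v.2.val + w.2.val + 1)
    (fun v w h => ⟨h.1.symm, by omega⟩) (fun v h => h.1 rfl) ?_
    (fun v => 2 * v.2.val + (if v.1 then 1 else 0)) ?_ 1 2 le_rfl (by norm_num) ?_ L ?_ (by simp)
  · intro u v w h1 h2 h3
    obtain ⟨h1, -⟩ := h1
    obtain ⟨h2, -⟩ := h2
    obtain ⟨h3, -⟩ := h3
    revert h1 h2 h3
    generalize u.1 = a
    generalize v.1 = b
    generalize w.1 = c
    revert a b c
    decide
  · rintro ⟨a, u⟩ ⟨b, v⟩ h
    simp only at h
    have h1 : u.val = v.val := by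
      split_ifs at h <;> omega
    have h2 : a = b := by
      cases a <;> cases b <;> simp at h ⊢ <;> omega
    rw [h2, Fin.ext h1]
  · rintro ⟨a, u⟩
    have h1 : (univ.filter (fun w : Bool × Fin L => a ≠ w.1 ∧ L ≤ u.val + w.2.val + 1)) =
        ({!a} : Finset Bool) ×ˢ (univ.filter (fun v : Fin L => L ≤ u.val + v.val + 1)) := by
      ext ⟨b, v⟩
      cases a <;> cases b <;> simp
    have h2 : (univ.filter (fun v : Fin L => L ≤ u.val + v.val + 1)).card = u.val + 1 := by
      have : (univ.filter (fun v : Fin L => L ≤ u.val + v.val + 1)).card =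
          (Finset.Ico (L - 1 - u.val) L).card := by
        apply Finset.card_bij (fun v _ => v.val)
        · intro v hv
          simp only [mem_filter, mem_univ, true_and, mem_Ico] at hv ⊢
          omega
        · intro v _ w _ h
          exact Fin.ext h
        · intro b hb
          simp only [mem_Ico] at hb
          exact ⟨⟨b, hb.2⟩, by simp only [mem_filter, mem_univ, true_and]; omega, rfl⟩
      rw [this]
      simp
      omega
    simp only
    rw [h1, Finset.card_product, h2]
    simp only [card_singleton, one_mul]
    split_ifs <;> omega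
  · intro I hI
    have : I.card ≤ (univ : Finset (Fin L)).card := by
      apply Finset.card_le_card_of_injOn
        (fun v : Bool × Fin L => if v.1 then v.2 else ⟨L - 1 - v.2.val, by omega⟩)
      · intro v _; simp
      · rintro ⟨a, u⟩ ha ⟨b, v⟩ hb h
        have := hI _ ha _ hb
        simp only at this h
        cases a <;> cases b
        · simp only [Bool.false_eq_true, if_false, Fin.mk.injEq] at h
          have : u = v := Fin.ext (by omega)
          rw [this]
        · exfalso
          simp only [Bool.false_eq_true, if_false, if_true] at h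
          apply this
          refine ⟨by decide, ?_⟩
          rw [← h]
          simp only
          omega
        · exfalso
          simp only [Bool.false_eq_true, if_false, if_true] at h
          apply this
          refine ⟨by decide, ?_⟩
          rw [h]
          simp only
          omega
        · simp only [if_true] at h
          rw [h]
    rw [Finset.card_univ, Fintype.card_fin] at this
    exact_mod_cast this

end Pool.Agent.H51.Few
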