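import Pool.Agent.H51.Cyc

/-! The graphs inside the parts, for MP_e6c71b_co. -/

namespace Pool.Agent.H51.Few

open Finset

section corr

variable {M : ℕ} (h B : ℕ) (z : ZMod M → ℕ)

/-- First correction. -/
def al (w : ZMod M) : ℕ := ∑ i ∈ range (h+1), z (w + i)

/-- Second correction. -/
def be (w : ZMod M) : ℕ := z w + ∑ i ∈ range (h+1), (B - z (w + i))

lemma al_add_be (hz : ∀ w, z w ≤ B) (w : ZMod M) : al h z w + be h B z w = (h+1) * B + z w := by
  have h1 : (∑ i ∈ range (h+1), z (w + i)) + ∑ i ∈ range (h+1), (B - z (w + i)) = (h+1) * B := by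
    rw [← Finset.sum_add_distrib, Finset.sum_congr rfl (g := fun _ => B)]
    · simp
    · intro i _
      have := hz (w + i)
      omega
  unfold al be
  omega

lemma al_le (hz : ∀ w, z w ≤ B) (w : ZMod M) : al h z w ≤ (h+1) * B := by
  have : al h z w ≤ ∑ _i ∈ range (h+1), B := Finset.sum_le_sum (fun i _ => hz _)
  simpa using this

lemma be_le (hz : ∀ w, z w ≤ B) (w : ZMod M) : be h B z w ≤ (h+2) * B := by
  have h1 : ∑ i ∈ range (h+1), (B - z (w + i)) ≤ ∑ _i ∈ range (h+1), B :=
    Finset.sum_le_sum (fun i _ => Nat.sub_le _ _)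
  have h2 := hz w
  simp only [sum_const, card_range, smul_eq_mul] at h1
  unfold be
  nlinarith

lemma al_add_be' (hz : ∀ w, z w ≤ B) (y : ZMod M) :
    al h z (y - h) + be h B z (y - (h+1)) = (h+1) * B + z y := by
  have e1 : al h z (y - h) = (∑ i ∈ range h, z (y - h + i)) + z y := by
    unfold al
    rw [Finset.sum_range_succ]
    congr 2
    ring
  have e2 : (∑ i ∈ range (h+1), (B - z (y - (h+1) + i))) =
      (∑ i ∈ range h, (B - z (y - h + i))) + (B - z (y - (h+1))) := by
    rw [Finset.sum_range_succ']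
    congr 1
    · apply Finset.sum_congr rfl
      intro i _
      congr 2
      push_cast
      ring
    · congr 2
      push_cast
      ring
  have e3 : (∑ i ∈ range h, z (y - h + i)) + ∑ i ∈ range h, (B - z (y - h + i)) = h * B := by
    rw [← Finset.sum_add_distrib, Finset.sum_congr rfl (g := fun _ => B)]
    · simp
    · intro i _
      have := hz (y - h + i)
      omega
  have e4 := hz (y - (h+1))
  unfold be
  rw [e1, e2]
  have : (h+1) * B = h * B + B := by ring
  omega

end corr

lemma card_val_lt {t a : ℕ} [NeZero t] (ha : a ≤ t) :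
    (univ.filter (fun z : ZMod t => z.val < a)).card = a := by
  have h1 : (univ.filter (fun z : ZMod t => z.val < a)) = (range a).image (fun d : ℕ => (d : ZMod t)) := by
    ext z
    simp only [mem_filter, mem_univ, true_and, mem_image, mem_range]
    constructor
    · intro hz; exact ⟨z.val, hz, by simp⟩
    · rintro ⟨d, hd, rfl⟩
      rw [ZMod.val_natCast_of_lt (by omega)]
      exact hd
  rw [h1, Finset.card_image_of_injOn]
  · simp
  · intro d hd d' hd' hdd
    simp only [coe_range, Set.mem_Iio] at hd hd'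
    have := congrArg ZMod.val hdd
    simp only at this
    rwa [ZMod.val_natCast_of_lt (by omega), ZMod.val_natCast_of_lt (by omega)] at this

lemma card_val_sub_lt {t a : ℕ} [NeZero t] (ha : a ≤ t) (s : ZMod t) :
    (univ.filter (fun s' : ZMod t => (s' - s).val < a)).card = a := by
  refine Eq.trans ?_ (card_val_lt ha)
  apply Finset.card_bij' (fun s' _ => s' - s) (fun z _ => z + s) <;> simp

lemma card_val_sub_lt' {t a : ℕ} [NeZero t] (ha : a ≤ t) (s : ZMod t) :
    (univ.filter (fun s' : ZMod t => (s - s').val < a)).card = a := by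
  refine Eq.trans ?_ (card_val_lt ha)
  apply Finset.card_bij' (fun s' _ => s - s') (fun z _ => s - z) <;> simp

/-- Labels of one part. -/
abbrev Lab (j t : ℕ) := (Fin (3*j) → ZMod 2) × (ZMod t × Bool)

/-- The correction relation. -/
def Cor {M t : ℕ} (h B : ℕ) (z : ZMod M → ℕ) (x : ZMod M) (s : ZMod t) (y : ZMod M)
    (s' : ZMod t) : Prop :=
  (y = x + h ∧ (s' - s).val < al h z x) ∨ (y = x + (h+1) ∧ (s' - s).val < be h B z x)

/-- The adjacency inside a part. -/
def Zad {M t j : ℕ} (q h B : ℕ) (z : ZMod M → ℕ) (f : Lab j t) (x : ZMod M) (f' : Lab j t)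
    (x' : ZMod M) : Prop :=
  (f.2 = f'.2 ∧ x' - x ∈ sh M q (M-q+1) ∧ agr f.1 f'.1 < j) ∨
  (f.1 = f'.1 ∧ f.2.2 = false ∧ f'.2.2 = true ∧ Cor h B z x f.2.1 x' f'.2.1) ∨
  (f.1 = f'.1 ∧ f.2.2 = true ∧ f'.2.2 = false ∧ Cor h B z x' f'.2.1 x f.2.1)

section gad

variable {M t j : ℕ} {q h B : ℕ} {z : ZMod M → ℕ}

lemma Zad.symm (hM : q ≤ M) {f f' : Lab j t} {x x' : ZMod M} (H : Zad q h B z f x f' x') :
    Zad q h B z f' x' f x := by
  rcases H with ⟨h1, h2, h3⟩ | ⟨h1, h2, h3, h4⟩ | ⟨h1, h2, h3, h4⟩
  · left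
    refine ⟨h1.symm, ?_, by rw [agr_comm]; exact h3⟩
    have := far_neg hM h2
    rwa [neg_sub] at this
  · right; right; exact ⟨h1.symm, h3, h2, h4⟩
  · right; left; exact ⟨h1.symm, h3, h2, h4⟩

lemma Zad.irrefl {f : Lab j t} {x : ZMod M} (H : Zad q h B z f x f x) : False := by
  rcases H with ⟨h1, h2, h3⟩ | ⟨h1, h2, h3, h4⟩ | ⟨h1, h2, h3, h4⟩
  · rw [agr_self] at h3; omega
  · rw [h2] at h3; exact absurd h3 (by decide)
  · rw [h2] at h3; exact absurd h3 (by decide)

lemma Cor.far (hh1 : q ≤ h) (hh2 : h + 1 ≤ M - q) {x y : ZMod M} {s s' : ZMod t}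
    (H : Cor h B z x s y s') : y - x ∈ sh M q (M-q+1) := by
  rcases H with ⟨h1, -⟩ | ⟨h1, -⟩
  · exact mem_sh.2 ⟨h, hh1, by omega, by rw [h1]; ring⟩
  · exact mem_sh.2 ⟨h+1, by omega, by omega, by rw [h1]; push_cast; ring⟩

lemma Zad.far (hM : q ≤ M) (hh1 : q ≤ h) (hh2 : h + 1 ≤ M - q) {f f' : Lab j t} {x x' : ZMod M}
    (H : Zad q h B z f x f' x') : x' - x ∈ sh M q (M-q+1) := by
  rcases H with ⟨h1, h2, h3⟩ | ⟨h1, h2, h3, h4⟩ | ⟨h1, h2, h3, h4⟩
  · exact h2
  · exact h4.far hh1 hh2
  · have := far_neg hM (h4.far hh1 hh2)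
    rwa [neg_sub] at this

lemma Zad.no_tri {f1 f2 f3 : Lab j t} {x1 x2 x3 : ZMod M} (H12 : Zad q h B z f1 x1 f2 x2)
    (H23 : Zad q h B z f2 x2 f3 x3) (H13 : Zad q h B z f1 x1 f3 x3) : False := by
  have key : ∀ u v w : Fin (3*j) → ZMod 2, agr u v < j → agr v w < j → agr u w < j → False := by
    intro u v w h1 h2 h3
    have := agr_three u v w
    omega
  have key2 : ∀ u v : Fin (3*j) → ZMod 2, agr u v < j → u = v → False := by
    intro u v h1 h2
    rw [h2, agr_self] at h1
    omega
  rcases H12 with ⟨a1, a2, a3⟩ | ⟨a1, a2, a3, a4⟩ | ⟨a1, a2, a3, a4⟩ <;>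
  rcases H23 with ⟨b1, b2, b3⟩ | ⟨b1, b2, b3, b4⟩ | ⟨b1, b2, b3, b4⟩ <;>
  rcases H13 with ⟨c1, c2, c3⟩ | ⟨c1, c2, c3, c4⟩ | ⟨c1, c2, c3, c4⟩ <;>
  first
    | exact key _ _ _ a3 b3 c3
    | exact key2 _ _ a3 (c1.trans b1.symm)
    | exact key2 _ _ b3 (a1.symm.trans c1)
    | exact key2 _ _ c3 (a1.trans b1)
    | (exfalso; simp_all)

open Classical in
lemma card_cor [NeZero t] (hM : 2 ≤ M) (hz : ∀ w, z w ≤ B) (ht : (h+2) * B ≤ t) (x : ZMod M)
    [NeZero M] (s : ZMod t) :
    (univ.filter (fun p : ZMod M × ZMod t => Cor h B z x s p.1 p.2)).card =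
      (h+1) * B + z x := by
  have hne : x + (h : ZMod M) ≠ x + ((h : ZMod M) + 1) := by
    intro hc
    have h1 : (0 : ZMod M) = 1 := by
      have := add_left_cancel hc
      have h2 : (h : ZMod M) + 0 = h + 1 := by rw [add_zero]; exact this
      exact add_left_cancel h2
    have : Fact (1 < M) := ⟨by omega⟩
    exact zero_ne_one h1
  have h1 : (univ.filter (fun p : ZMod M × ZMod t => Cor h B z x s p.1 p.2)) =
      (({x + (h : ZMod M)} : Finset (ZMod M)) ×ˢ
        (univ.filter (fun s' : ZMod t => (s' - s).val < al h z x))) ∪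
      (({x + ((h : ZMod M) + 1)} : Finset (ZMod M)) ×ˢ
        (univ.filter (fun s' : ZMod t => (s' - s).val < be h B z x))) := by
    ext p
    simp only [Cor, mem_filter, mem_univ, true_and, mem_union, mem_product, mem_singleton]
  rw [h1, Finset.card_union_of_disjoint, Finset.card_product, Finset.card_product,
    card_val_sub_lt, card_val_sub_lt]
  · simp only [card_singleton, one_mul]
    exact al_add_be h B z hz x
  · exact (be_le h B z hz x).trans ht
  · exact (al_le h B z hz x).trans (le_trans (Nat.mul_le_mul_right _ (by omega)) ht)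
  · rw [Finset.disjoint_left]
    rintro p hp1 hp2
    simp only [mem_product, mem_singleton] at hp1 hp2
    exact hne (hp1.1.symm.trans hp2.1)

open Classical in
lemma card_cor' [NeZero t] (hM : 2 ≤ M) (hz : ∀ w, z w ≤ B) (ht : (h+2) * B ≤ t) (x : ZMod M)
    [NeZero M] (s : ZMod t) :
    (univ.filter (fun p : ZMod M × ZMod t => Cor h B z p.1 p.2 x s)).card =
      (h+1) * B + z x := by
  have hne : x - (h : ZMod M) ≠ x - ((h : ZMod M) + 1) := by
    intro hc
    have h1 : (0 : ZMod M) = 1 := by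
      have := sub_right_injective hc
      have h2 : (h : ZMod M) + 0 = h + 1 := by rw [add_zero]; exact this
      exact add_left_cancel h2
    have : Fact (1 < M) := ⟨by omega⟩
    exact zero_ne_one h1
  have h1 : (univ.filter (fun p : ZMod M × ZMod t => Cor h B z p.1 p.2 x s)) =
      (({x - (h : ZMod M)} : Finset (ZMod M)) ×ˢ
        (univ.filter (fun s' : ZMod t => (s - s').val < al h z (x - h)))) ∪
      (({x - ((h : ZMod M) + 1)} : Finset (ZMod M)) ×ˢ
        (univ.filter (fun s' : ZMod t => (s - s').val < be h B z (x - (h+1))))) := by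
    ext p
    simp only [Cor, mem_filter, mem_univ, true_and, mem_union, mem_product, mem_singleton]
    constructor
    · rintro (⟨e1, e2⟩ | ⟨e1, e2⟩)
      · left
        have : p.1 = x - h := by rw [e1]; ring
        exact ⟨this, by rw [← this]; exact e2⟩
      · right
        have : p.1 = x - (h + 1) := by rw [e1]; ring
        exact ⟨this, by rw [← this]; exact e2⟩
    · rintro (⟨e1, e2⟩ | ⟨e1, e2⟩)
      · left
        exact ⟨by rw [e1]; ring, by rw [e1]; exact e2⟩
      · right
        exact ⟨by rw [e1]; ring, by rw [e1]; exact e2⟩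
  rw [h1, Finset.card_union_of_disjoint, Finset.card_product, Finset.card_product,
    card_val_sub_lt', card_val_sub_lt']
  · simp only [card_singleton, one_mul]
    exact al_add_be' h B z hz x
  · exact (be_le h B z hz _).trans ht
  · exact (al_le h B z hz _).trans (le_trans (Nat.mul_le_mul_right _ (by omega)) ht)
  · rw [Finset.disjoint_left]
    rintro p hp1 hp2
    simp only [mem_product, mem_singleton] at hp1 hp2
    exact hne (hp1.1.symm.trans hp2.1)

/-- Common degree in the cube graph. -/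
def rho (j : ℕ) : ℕ := (univ.filter (fun v : Fin (3*j) → ZMod 2 => agr 0 v < j)).card

lemma card_agr (u : Fin (3*j) → ZMod 2) :
    (univ.filter (fun v : Fin (3*j) → ZMod 2 => agr u v < j)).card = rho j := by
  have hagr : ∀ v : Fin (3*j) → ZMod 2, agr u v = agr 0 (v - u) := by
    intro v
    unfold agr
    apply Finset.sum_congr rfl
    intro i _
    have : (u i = v i) ↔ ((0 : Fin (3*j) → ZMod 2) i = (v - u) i) := by
      simp only [Pi.zero_apply, Pi.sub_apply]
      constructor
      · intro e; rw [e, sub_self]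
      · intro e; exact (sub_eq_zero.1 e.symm).symm
    simp only [this]
  unfold rho
  apply Finset.card_bij' (fun v _ => v - u) (fun v _ => v + u)
  · intro v hv
    simp only [mem_filter, mem_univ, true_and] at hv ⊢
    rwa [← hagr]
  · intro v hv
    simp only [mem_filter, mem_univ, true_and] at hv ⊢
    rw [hagr]
    simpa using hv
  · simp
  · simp

lemma card_shift [NeZero M] (A : Finset (ZMod M)) (x : ZMod M) :
    (univ.filter (fun y : ZMod M => y - x ∈ A)).card = A.card := by
  apply Finset.card_bij' (fun v _ => v - x) (fun v _ => v + x) <;> simp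

lemma card_shift' [NeZero M] (A : Finset (ZMod M)) (x : ZMod M) :
    (univ.filter (fun y : ZMod M => x - y ∈ A)).card = A.card := by
  apply Finset.card_bij' (fun v _ => x - v) (fun v _ => x - v) <;> simp

open Classical in
lemma card_Zad [NeZero t] [NeZero M] (hM : 2 ≤ M) (hz : ∀ w, z w ≤ B)
    (ht : (h+2) * B ≤ t) (f : Lab j t) (x : ZMod M) :
    (univ.filter (fun p : Lab j t × ZMod M => Zad q h B z f x p.1 p.2)).card =
      rho j * (sh M q (M-q+1)).card + ((h+1) * B + z x) := by
  have h1 : (univ.filter (fun p : Lab j t × ZMod M => Zad q h B z f x p.1 p.2)) =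
      ((((univ.filter (fun v : Fin (3*j) → ZMod 2 => agr f.1 v < j)) ×ˢ
        (univ.filter (fun y : ZMod M => y - x ∈ sh M q (M-q+1)))).image
          (fun p => (((p.1, f.2) : Lab j t), p.2)))) ∪
      (univ.filter (fun p : Lab j t × ZMod M =>
        (f.1 = p.1.1 ∧ f.2.2 = false ∧ p.1.2.2 = true ∧ Cor h B z x f.2.1 p.2 p.1.2.1) ∨
        (f.1 = p.1.1 ∧ f.2.2 = true ∧ p.1.2.2 = false ∧ Cor h B z p.2 p.1.2.1 x f.2.1))) := by
    ext ⟨f', x'⟩
    simp only [Zad, mem_filter, mem_univ, true_and, mem_union, mem_image, mem_product]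
    constructor
    · rintro (⟨e1, e2, e3⟩ | e)
      · left
        exact ⟨(f'.1, x'), ⟨e3, e2⟩, by rw [e1]⟩
      · right; exact e
    · rintro (⟨⟨u, y⟩, ⟨e3, e2⟩, e⟩ | e)
      · left
        simp only [Prod.mk.injEq] at e
        obtain ⟨rfl, rfl⟩ := e
        exact ⟨rfl, e2, e3⟩
      · right; exact e
  rw [h1, Finset.card_union_of_disjoint, Finset.card_image_of_injective, Finset.card_product,
    card_agr, card_shift]
  · congr 1
    by_cases hb : f.2.2 = false
    · rw [← card_cor hM hz ht x f.2.1]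
      symm
      apply Finset.card_bij (fun (p : ZMod M × ZMod t) _ => (((f.1, (p.2, true)) : Lab j t), p.1))
      · intro p hp
        simp only [mem_filter, mem_univ, true_and] at hp ⊢
        left; exact ⟨hb, hp⟩
      · intro p _ p' _ e
        simp only [Prod.mk.injEq, true_and, and_true] at e
        exact Prod.ext e.2 e.1
      · rintro ⟨f', y⟩ hp
        simp only [mem_filter, mem_univ, true_and] at hp
        rcases hp with ⟨e1, e2, e3, e4⟩ | ⟨e1, e2, e3, e4⟩
        · refine ⟨(y, f'.2.1), by simpa using e4, ?_⟩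
          obtain ⟨u', s', b'⟩ := f'
          simp only at e1 e3 ⊢
          rw [e1, e3]
        · rw [hb] at e2; exact absurd e2 (by decide)
    · have hb' : f.2.2 = true := by simpa using hb
      rw [← card_cor' hM hz ht x f.2.1]
      symm
      apply Finset.card_bij (fun (p : ZMod M × ZMod t) _ => (((f.1, (p.2, false)) : Lab j t), p.1))
      · intro p hp
        simp only [mem_filter, mem_univ, true_and] at hp ⊢
        right; exact ⟨hb', hp⟩
      · intro p _ p' _ e
        simp only [Prod.mk.injEq, true_and, and_true] at e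
        exact Prod.ext e.2 e.1
      · rintro ⟨f', y⟩ hp
        simp only [mem_filter, mem_univ, true_and] at hp
        rcases hp with ⟨e1, e2, e3, e4⟩ | ⟨e1, e2, e3, e4⟩
        · exact absurd e2 hb
        · refine ⟨(y, f'.2.1), by simpa using e4, ?_⟩
          obtain ⟨u', s', b'⟩ := f'
          simp only at e1 e3 ⊢
          rw [e1, e3]
  · rintro ⟨a, b⟩ ⟨a', b'⟩ e
    simp only [Prod.mk.injEq, and_true] at e
    exact Prod.ext e.1 e.2
  · rw [Finset.disjoint_left]
    rintro p hp1 hp2
    simp only [mem_image, mem_filter, mem_univ, true_and] at hp1 hp2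
    obtain ⟨a, -, rfl⟩ := hp1
    rcases hp2 with ⟨e1, e2, e3, e4⟩ | ⟨e1, e2, e3, e4⟩
    · simp only at e3; rw [e2] at e3; exact absurd e3 (by decide)
    · simp only at e3; rw [e2] at e3; exact absurd e3 (by decide)

end gad

end Pool.Agent.H51.Few
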