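import Pool.Agent.H51.Fewdef

/-! The main construction for MP_e6c71b_co. -/

namespace Pool.Agent.H51.Few

open Finset

/-- Requested surplus. -/
def zet {M : ℕ} (k q c : ℕ) (x : ZMod M) : ℕ := (x.val + k * q - c) / k + q * ((c + c) / (k * q))

lemma hermite (r : ℕ) (hr : 0 < r) (c : ℕ) : ∑ i ∈ range r, (c + i) / r = c := by
  induction c with
  | zero =>
    apply Finset.sum_eq_zero
    intro i hi
    rw [zero_add]
    exact Nat.div_eq_of_lt (Finset.mem_range.1 hi)
  | succ c ih =>
    have h1 := Finset.sum_range_succ (fun i => (c + i) / r) r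
    have h2 := Finset.sum_range_succ' (fun i => (c + i) / r) r
    rw [h1, ih] at h2
    have h3 : (c + r) / r = c / r + 1 := Nat.add_div_right c hr
    have h4 : ∑ i ∈ range r, (c + 1 + i) / r = ∑ i ∈ range r, (c + (i + 1)) / r :=
      Finset.sum_congr rfl (fun i _ => by congr 1; ring)
    rw [h4]
    rw [h3, add_zero] at h2
    omega

section W

variable {F : Type*} {M r N : ℕ}

/-- Adjacency between parts. -/
def Wad (q : ℕ) (idx : F → ℕ) (N : ℕ) (v w : F × (Fin r × ZMod M)) : Prop :=
  ((v.2.1 < w.2.1 ∧ w.2.2 - v.2.2 ∈ sh M q (2*q)) ∨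
    (w.2.1 < v.2.1 ∧ v.2.2 - w.2.2 ∈ sh M q (2*q))) ∧
  N ≤ idx v.1 + idx w.1 + (v.2.1.val + w.2.1.val) / r

open Classical in
lemma card_Wad [Fintype F] [NeZero M] (q : ℕ) (hq : 2 * q ≤ q + M) (e : F ≃ Fin N) (hr : 0 < r)
    (v : F × (Fin r × ZMod M)) :
    (univ.filter (fun w => Wad q (fun f => (e f).val) N v w)).card
      + q * ((e v.1).val + (v.2.1.val + v.2.1.val) / r) = q * ((e v.1).val * r + v.2.1.val) := by
  obtain ⟨f, c, x⟩ := v
  simp only
  have h1 : (univ.filter (fun w => Wad q (fun f => (e f).val) N (f, c, x) w)).card =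
      ∑ c' : Fin r, (univ.filter (fun p : F × ZMod M =>
        Wad q (fun f => (e f).val) N (f, c, x) (p.1, c', p.2))).card := by
    simp only [Finset.card_filter, Fintype.sum_prod_type]
    rw [Finset.sum_comm]
  have h2 : ∀ c' : Fin r, (univ.filter (fun p : F × ZMod M =>
        Wad q (fun f => (e f).val) N (f, c, x) (p.1, c', p.2))).card =
      if c' = c then 0 else q * ((e f).val + (c.val + c'.val) / r) := by
    intro c'
    have hdl : (c.val + c'.val) / r ≤ 1 := by
      have : (c.val + c'.val) / r < 2 := by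
        rw [Nat.div_lt_iff_lt_mul hr]
        have := c.isLt
        have := c'.isLt
        omega
      omega
    have hcnt : (univ.filter (fun f' : F =>
        N ≤ (e f).val + (e f').val + (c.val + c'.val) / r)).card =
        (e f).val + (c.val + c'.val) / r := by
      have hlt := (e f).isLt
      generalize (c.val + c'.val) / r = dl at hdl
      have : (univ.filter (fun f' : F =>
          N ≤ (e f).val + (e f').val + dl)).card =
          (Finset.Ico (N - ((e f).val + dl)) N).card := by
        apply Finset.card_bij (fun f' _ => (e f').val)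
        · intro f' hf'
          simp only [mem_filter, mem_univ, true_and, mem_Ico] at hf' ⊢
          have := (e f').isLt
          omega
        · intro a _ b _ h
          exact e.injective (Fin.ext h)
        · intro b hb
          simp only [mem_Ico] at hb
          refine ⟨e.symm ⟨b, hb.2⟩, ?_, by simp⟩
          simp only [mem_filter, mem_univ, true_and, Equiv.apply_symm_apply]
          omega
      rw [this]
      simp only [Nat.card_Ico]
      omega
    by_cases hc : c' = c
    · rw [if_pos hc, Finset.card_eq_zero, Finset.filter_eq_empty_iff]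
      rintro p - ⟨h | h, -⟩
      · simp only at h; rw [hc] at h; exact lt_irrefl _ h.1
      · simp only at h; rw [hc] at h; exact lt_irrefl _ h.1
    · rw [if_neg hc]
      rcases lt_or_gt_of_ne hc with hlt | hlt
      · have : (univ.filter (fun p : F × ZMod M =>
            Wad q (fun f => (e f).val) N (f, c, x) (p.1, c', p.2))) =
            (univ.filter (fun f' : F =>
              N ≤ (e f).val + (e f').val + (c.val + c'.val) / r)) ×ˢ
            (univ.filter (fun y : ZMod M => x - y ∈ sh M q (2*q))) := by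
          ext p
          simp only [Wad, mem_filter, mem_univ, true_and, mem_product]
          constructor
          · rintro ⟨h | h, h'⟩
            · exact absurd h.1 (not_lt_of_gt hlt)
            · exact ⟨h', h.2⟩
          · rintro ⟨h', h⟩
            exact ⟨Or.inr ⟨hlt, h⟩, h'⟩
        rw [this, Finset.card_product, hcnt, card_shift', card_sh hq, mul_comm]
        congr 1
        omega
      · have : (univ.filter (fun p : F × ZMod M =>
            Wad q (fun f => (e f).val) N (f, c, x) (p.1, c', p.2))) =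
            (univ.filter (fun f' : F =>
              N ≤ (e f).val + (e f').val + (c.val + c'.val) / r)) ×ˢ
            (univ.filter (fun y : ZMod M => y - x ∈ sh M q (2*q))) := by
          ext p
          simp only [Wad, mem_filter, mem_univ, true_and, mem_product]
          constructor
          · rintro ⟨h | h, h'⟩
            · exact ⟨h', h.2⟩
            · exact absurd h.1 (not_lt_of_gt hlt)
          · rintro ⟨h', h⟩
            exact ⟨Or.inl ⟨hlt, h⟩, h'⟩
        rw [this, Finset.card_product, hcnt, card_shift, card_sh hq, mul_comm]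
        congr 1
        omega
  have h3 : ∑ c' : Fin r, q * ((e f).val + (c.val + c'.val) / r) =
      q * ((e f).val * r + c.val) := by
    rw [← Finset.mul_sum, Finset.sum_add_distrib]
    have : ∑ i : Fin r, (c.val + i.val) / r = c.val := by
      rw [Fin.sum_univ_eq_sum_range (fun i => (c.val + i) / r) r]
      exact hermite r hr c.val
    rw [this]
    simp [mul_comm]
  rw [h1, ← h3, Finset.sum_congr rfl (fun c' _ => h2 c')]
  rw [← Finset.sum_erase_add _ _ (Finset.mem_univ c),
    ← Finset.sum_erase_add (univ : Finset (Fin r))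
      (fun c' => q * ((e f).val + (c.val + c'.val) / r)) (Finset.mem_univ c)]
  rw [if_pos rfl, add_zero]
  congr 1
  apply Finset.sum_congr rfl
  intro c' hc'
  rw [if_neg (Finset.ne_of_mem_erase hc')]

lemma Wad.symm {q : ℕ} {idx : F → ℕ} {v w : F × (Fin r × ZMod M)} (H : Wad q idx N v w) :
    Wad q idx N w v := by
  obtain ⟨h1, h2⟩ := H
  refine ⟨h1.symm, ?_⟩
  rw [add_comm (idx w.1), add_comm (w.2.1.val)]
  exact h2

lemma Wad.ne {q : ℕ} {idx : F → ℕ} {v w : F × (Fin r × ZMod M)} (H : Wad q idx N v w) :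
    v.2.1 ≠ w.2.1 := by
  rcases H with ⟨h | h, -⟩
  · exact ne_of_lt h.1
  · exact ne_of_gt h.1

lemma Wad.no_tri {q : ℕ} (hM : 3 * q ≤ M + 1) {idx : F → ℕ} {u v w : F × (Fin r × ZMod M)}
    (H1 : Wad q idx N u v) (H2 : Wad q idx N v w) (H3 : Wad q idx N u w) : False := by
  rcases H1 with ⟨⟨a1, a2⟩ | ⟨a1, a2⟩, -⟩ <;> rcases H2 with ⟨⟨b1, b2⟩ | ⟨b1, b2⟩, -⟩ <;>
  rcases H3 with ⟨⟨c1, c2⟩ | ⟨c1, c2⟩, -⟩
  · exact sum_free hM a2 b2 c2 (by ring)
  · exact absurd (a1.trans b1) (not_lt_of_gt c1)
  · exact sum_free hM c2 b2 a2 (by ring)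
  · exact sum_free hM c2 a2 b2 (by ring)
  · exact sum_free hM a2 c2 b2 (by ring)
  · exact sum_free hM b2 c2 a2 (by ring)
  · exact absurd (b1.trans a1) (not_lt_of_gt c1)
  · exact sum_free hM b2 a2 c2 (by ring)

lemma Wad.no_common {q : ℕ} (hM : q ≤ M) {idx : F → ℕ} {u v w : F × (Fin r × ZMod M)}
    (huv : u.2.1 = v.2.1) (hfar : v.2.2 - u.2.2 ∈ sh M q (M-q+1))
    (H2 : Wad q idx N v w) (H3 : Wad q idx N u w) : False := by
  rcases H2 with ⟨⟨b1, b2⟩ | ⟨b1, b2⟩, -⟩ <;>
  rcases H3 with ⟨⟨c1, c2⟩ | ⟨c1, c2⟩, -⟩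
  · exact diff_not_far hM c2 b2 hfar (by ring)
  · rw [huv] at c1; exact absurd b1 (not_lt_of_gt c1)
  · rw [huv] at c1; exact absurd b1 (not_lt_of_gt c1)
  · exact diff_not_far hM b2 c2 hfar (by ring)

end W

/-- The whole adjacency relation. -/
def Bad {M r t j : ℕ} (k q h B N : ℕ) (idx : Lab j t → ℕ)
    (v w : Lab j t × (Fin r × ZMod M)) : Prop :=
  Wad q idx N v w ∨ (v.2.1 = w.2.1 ∧ Zad q h B (zet k q v.2.1.val) v.1 v.2.2 w.1 w.2.2)

/-- Existence for `k ≥ 3`. -/
lemma exists_three (k q j : ℕ) (hk : 3 ≤ k) (hq : 1 ≤ q) :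
    ∃ n : ℕ, 8 ^ j ≤ n ∧ ∃ G : SimpleGraph (Fin n), Admissible k G ∧
      (G.indepNum : ℝ) ≤ ((2 * q : ℕ) / (k * (2 * q) - 1 : ℕ) + 2 ^ (k * (2 * q) - 1) * (27/32) ^ j) * n := by
  classical
  -- parameters
  obtain ⟨Q, hQ⟩ : ∃ Q, Q = 2 * q := ⟨_, rfl⟩
  rw [← hQ]
  obtain ⟨M, hM⟩ : ∃ M, M = k * Q - 1 := ⟨_, rfl⟩
  rw [← hM]
  have hkQ : 3 * Q ≤ k * Q := Nat.mul_le_mul_right _ hk
  have hM1 : M + 1 = k * Q := by omega
  have hMQ : 3 * Q ≤ M + 1 := by omega
  have hQ2 : 2 ≤ Q := by omega
  have hM5 : 5 ≤ M := by omega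
  have : NeZero M := ⟨by omega⟩
  obtain ⟨h, hh⟩ : ∃ h, M = 2 * h + 1 := by
    refine ⟨k * q - 1, ?_⟩
    have e1 : k * Q = 2 * (k * q) := by rw [hQ]; ring
    have e2 : 3 * q ≤ k * q := Nat.mul_le_mul_right _ hk
    omega
  have hhq : Q ≤ h := by omega
  have hhq2 : h + 1 ≤ M - Q := by omega
  obtain ⟨r, hr⟩ : ∃ r, r = k * Q := ⟨_, rfl⟩
  have hrM : r = M + 1 := by omega
  obtain ⟨B, hB⟩ : ∃ B, B = 3 * Q := ⟨_, rfl⟩
  obtain ⟨t, ht⟩ : ∃ t, t = (h + 2) * B := ⟨_, rfl⟩
  have htpos : 1 ≤ t := by
    rw [ht]; exact Nat.mul_pos (by omega) (by omega)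
  have : NeZero t := ⟨by omega⟩
  obtain ⟨N, hN⟩ : ∃ N, N = Fintype.card (Lab j t) := ⟨_, rfl⟩
  have hNcard : N = 8 ^ j * (t * 2) := by
    rw [hN]
    simp [ZMod.card, pow_mul]
  let e : Lab j t ≃ Fin N := (Fintype.equivFinOfCardEq hN.symm)
  have hzB : ∀ (c : Fin r) (x : ZMod M), zet k Q c.val x ≤ B := by
    intro c x
    unfold zet
    have h1 : (x.val + k * Q - c.val) / k ≤ 2 * Q := by
      have hx := ZMod.val_lt x
      apply Nat.div_le_of_le_mul
      have : k * (2 * Q) = 2 * (k * Q) := by ring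
      omega
    have h2 : (c.val + c.val) / (k * Q) ≤ 1 := by
      have : (c.val + c.val) / (k * Q) < 2 := by
        rw [Nat.div_lt_iff_lt_mul (by omega)]
        have := c.isLt
        omega
      omega
    have h3 : Q * ((c.val + c.val) / (k * Q)) ≤ Q * 1 := Nat.mul_le_mul_left _ h2
    omega
  let idx : Lab j t → ℕ := fun f => (e f).val
  have hNpos : 0 < N := by rw [hNcard]; positivity
  have : Nonempty (Lab j t × (Fin r × ZMod M)) :=
    ⟨⟨e.symm ⟨0, hNpos⟩, ⟨0, by omega⟩, 0⟩⟩
  have hcardV : Fintype.card (Lab j t × (Fin r × ZMod M)) = N * (r * M) := by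
    rw [Fintype.card_prod, ← hN, Fintype.card_prod, Fintype.card_fin, ZMod.card]
  have hnn : 8 ^ j ≤ N * (r * M) := by
    rw [hNcard]
    have h1 : 1 ≤ t * 2 * (r * M) := Nat.mul_pos (by omega) (Nat.mul_pos (by omega) (by omega))
    calc 8 ^ j = 8 ^ j * 1 := by ring
      _ ≤ 8 ^ j * (t * 2 * (r * M)) := Nat.mul_le_mul_left _ h1
      _ = _ := by ring
  refine ⟨N * (r * M), hnn, ?_⟩
  let K : ℕ := rho j * (sh M Q (M-Q+1)).card + (h+1) * B + Q
  apply transfer (V := Lab j t × (Fin r × ZMod M)) (Bad k Q h B N idx)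
    (K := K) (k := k) (code := fun v => M * (idx v.1 * r + v.2.1.val) + v.2.2.val)
    (hn := hcardV)
  · -- symmetry
    rintro v w (H | ⟨H1, H2⟩)
    · exact Or.inl H.symm
    · right
      refine ⟨H1.symm, ?_⟩
      rw [← H1]
      exact H2.symm (by omega)
  · -- irreflexive
    rintro v (H | ⟨H1, H2⟩)
    · exact H.ne rfl
    · exact H2.irrefl
  · -- no triangles
    rintro u v w (H1 | ⟨e1, H1⟩) (H2 | ⟨e2, H2⟩) (H3 | ⟨e3, H3⟩)
    · exact H1.no_tri hMQ H2 H3
    · exact Wad.no_common (by omega) e3 (H3.far (by omega) hhq hhq2) H2.symm H1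
    · -- u-v in W, v w same part, u-w in W
      exact Wad.no_common (by omega) e2 (H2.far (by omega) hhq hhq2) H3.symm H1.symm
    · exact H1.ne (e3.trans e2.symm)
    · exact Wad.no_common (by omega) e1 (H1.far (by omega) hhq hhq2) H2 H3
    · exact H2.ne (e1.symm.trans e3)
    · exact H3.ne (e1.trans e2)
    · rw [← e1] at H2
      exact H1.no_tri H2 H3
  · -- injectivity of the code
    rintro ⟨f, c, x⟩ ⟨f', c', x'⟩ hcode
    simp only at hcode
    have hx := ZMod.val_lt x
    have hx' := ZMod.val_lt x'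
    have hc := c.isLt
    have hc' := c'.isLt
    have hMpos : 0 < M := by omega
    have hrpos : 0 < r := by omega
    have e1 : x.val = x'.val := by
      have := congrArg (· % M) hcode
      simp only [Nat.mul_add_mod] at this
      rwa [Nat.mod_eq_of_lt hx, Nat.mod_eq_of_lt hx'] at this
    have e2 : idx f * r + c.val = idx f' * r + c'.val := by
      rw [e1] at hcode
      exact Nat.eq_of_mul_eq_mul_left hMpos (Nat.add_right_cancel hcode)
    have e3 : c.val = c'.val := by
      have := congrArg (· % r) e2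
      simp only [mul_comm _ r, Nat.mul_add_mod] at this
      rwa [Nat.mod_eq_of_lt hc, Nat.mod_eq_of_lt hc'] at this
    have e4 : idx f = idx f' := by
      rw [e3] at e2
      exact Nat.eq_of_mul_eq_mul_right hrpos (Nat.add_right_cancel e2)
    have e5 : f = f' := e.injective (Fin.ext e4)
    have e6 : x = x' := ZMod.val_injective M e1
    rw [e5, e6, Fin.ext e3]
  · -- K ≥ 1
    simp only [K]
    omega
  · omega
  · -- degrees
    rintro v
    have hdisj : (univ.filter (fun w => Bad k Q h B N idx v w)).card =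
        (univ.filter (fun w => Wad Q idx N v w)).card +
        (univ.filter (fun w : Lab j t × (Fin r × ZMod M) => v.2.1 = w.2.1 ∧
          Zad Q h B (zet k Q v.2.1.val) v.1 v.2.2 w.1 w.2.2)).card := by
      have hu : (univ.filter (fun w => Bad k Q h B N idx v w)) =
          (univ.filter (fun w => Wad Q idx N v w)) ∪
          (univ.filter (fun w : Lab j t × (Fin r × ZMod M) => v.2.1 = w.2.1 ∧
            Zad Q h B (zet k Q v.2.1.val) v.1 v.2.2 w.1 w.2.2)) := by
        ext w
        simp only [Bad, mem_filter, mem_univ, true_and, mem_union]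
      rw [hu, Finset.card_union_of_disjoint]
      · rw [Finset.disjoint_filter]
        rintro w - H1 ⟨H2, -⟩
        exact H1.ne H2
    have hZ : (univ.filter (fun w : Lab j t × (Fin r × ZMod M) => v.2.1 = w.2.1 ∧
          Zad Q h B (zet k Q v.2.1.val) v.1 v.2.2 w.1 w.2.2)).card =
          rho j * (sh M Q (M-Q+1)).card + ((h+1) * B + zet k Q v.2.1.val v.2.2) := by
      rw [← card_Zad (q := Q) (by omega) (fun w => hzB v.2.1 w) ht.ge v.1 v.2.2]
      symm
      apply Finset.card_bij (fun (p : Lab j t × ZMod M) _ => (p.1, (v.2.1, p.2)))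
      · intro p hp
        simp only [mem_filter, mem_univ, true_and] at hp ⊢
        exact hp
      · intro p _ p' _ e
        simp only [Prod.mk.injEq, true_and] at e
        exact Prod.ext e.1 e.2
      · rintro ⟨f, c, x⟩ hw
        simp only [mem_filter, mem_univ, true_and] at hw
        exact ⟨(f, x), by simpa using hw.2, by rw [hw.1]⟩
    have hW := card_Wad (F := Lab j t) (M := M) (r := r) Q (by omega) e (by omega) v
    rw [hdisj, hZ]
    obtain ⟨f, c, x⟩ := v
    simp only at hW ⊢
    have hx := ZMod.val_lt x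
    have hc := c.isLt
    have hdef : zet k Q c.val x = (x.val + k * Q - c.val) / k + Q * ((c.val + c.val) / r) := by
      have e0 : ∀ a : ℕ, a / (k * Q) = a / r := fun a => by rw [hr]
      unfold zet
      rw [e0]
    rw [hdef]
    have hmul : ∀ a : ℕ, a * r = a * (M + 1) := fun a => by rw [hrM]
    have hX : M * (idx f * r + c.val) + x.val + k * Q =
        k * (Q * (idx f * M + c.val)) + (x.val + k * Q - c.val) := by
      have e1 : x.val + k * Q - c.val + c.val = x.val + k * Q := by omega
      have e2 : k * (Q * (idx f * M + c.val)) = (M + 1) * (idx f * M + c.val) := by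
        rw [hM1]; ring
      have e3 : M * (idx f * r + c.val) = M * (idx f * (M+1) + c.val) := by rw [hmul]
      have e4 : M * (idx f * (M+1) + c.val) + c.val = (M + 1) * (idx f * M + c.val) := by ring
      omega
    have hkpos : 0 < k := by omega
    have hX2 : (M * (idx f * r + c.val) + x.val) / k + Q =
        Q * (idx f * M + c.val) + (x.val + k * Q - c.val) / k := by
      rw [← Nat.add_mul_div_left _ _ hkpos, hX, Nat.mul_add_div hkpos]
    have hW2 : (univ.filter (fun w => Wad Q idx N (f, c, x) w)).card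
      + (Q * idx f + Q * ((c.val + c.val) / r)) = Q * (idx f * M + c.val) + Q * idx f := by
      have e1 : Q * (idx f * M + c.val) + Q * idx f = Q * (idx f * r + c.val) := by
        rw [hmul]; ring
      rw [e1, ← hW]
      ring
    simp only [K]
    omega
  · -- independent sets
    intro I hI
    have hfib : ∀ p : Fin r × (ZMod t × Bool),
        ((I.filter (fun v => (v.2.1, v.1.2) = p)).card : ℝ) ≤
          Q * 8 ^ j + M * (2 ^ M * (27/4) ^ j) := by
      intro p
      let J : Finset ((Fin (3*j) → ZMod 2) × ZMod M) :=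
        univ.filter (fun y => (((y.1, p.2) : Lab j t), (p.1, y.2)) ∈ I)
      have hJ : (I.filter (fun v => (v.2.1, v.1.2) = p)).card = J.card := by
        symm
        apply Finset.card_bij (fun y _ => (((y.1, p.2) : Lab j t), (p.1, y.2)))
        · intro y hy
          simp only [J, mem_filter, mem_univ, true_and, and_true] at hy ⊢
          exact hy
        · intro y _ y' _ e
          simp only [Prod.mk.injEq, true_and, and_true] at e
          exact Prod.ext e.1 e.2
        · rintro ⟨⟨u, s⟩, c, x⟩ hv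
          simp only [mem_filter] at hv
          obtain ⟨hv1, rfl⟩ := hv
          exact ⟨(u, x), by simpa [J] using hv1, rfl⟩
      rw [hJ]
      apply fiber_bound (by omega) (by omega)
      intro y hy y' hy' hfar hagr
      simp only [J, mem_filter, mem_univ, true_and] at hy hy'
      apply hI _ hy _ hy'
      right
      exact ⟨rfl, Or.inl ⟨rfl, hfar, hagr⟩⟩
    have hsum : I.card = ∑ p : Fin r × (ZMod t × Bool),
        (I.filter (fun v => (v.2.1, v.1.2) = p)).card := by
      rw [← Finset.card_eq_sum_card_fiberwise]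
      intro v _
      simp
    have hle : (I.card : ℝ) ≤ (r * (t * 2) : ℕ) * (Q * 8 ^ j + M * (2 ^ M * (27/4) ^ j)) := by
      rw [hsum]
      push_cast
      calc ∑ p : Fin r × (ZMod t × Bool), ((I.filter (fun v => (v.2.1, v.1.2) = p)).card : ℝ)
          ≤ ∑ _p : Fin r × (ZMod t × Bool), (Q * 8 ^ j + M * (2 ^ M * (27/4) ^ j) : ℝ) :=
            Finset.sum_le_sum (fun p _ => hfib p)
        _ = (r * (t * 2)) * (Q * 8 ^ j + M * (2 ^ M * (27/4) ^ j)) := by
            simp only [sum_const, card_univ, Fintype.card_prod, Fintype.card_fin, ZMod.card,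
              Fintype.card_bool, nsmul_eq_mul]
            push_cast
            ring
    refine hle.trans (le_of_eq ?_)
    rw [hNcard]
    have hMne : (M : ℝ) ≠ 0 := by
      have : (0:ℝ) < M := by exact_mod_cast (by omega : 0 < M)
      exact this.ne'
    have h8 : ((27:ℝ)/4) ^ j = 8 ^ j * (27/32) ^ j := by
      rw [← mul_pow]; norm_num
    rw [h8]
    push_cast
    field_simp

end Pool.Agent.H51.Few
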