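import Pool.Agent.H51.TK_w1

/-!
# Coverage under the pair weight
-/

set_option autoImplicit false

open Finset
open scoped Classical

namespace Pool.Agent.H51.TK

open Pool.Agent.H666.TK

theorem tri {K R : ℕ} (φ : Fin R → ℝ) (i x y : Fin K) (hix : i ≠ x) (hiy : i ≠ y) (hxy : x ≠ y)
    (α β γ : Fin R → ℝ) :
    (R : ℝ) ^ 3 * ∑ u : Fin K → Fin R, (α (u i) * β (u x) * γ (u y)) *
        (if u x < u i ∧ u y < u i then φ (u i) else 0) =
      (R : ℝ) ^ K * ∑ r, α r * φ r * ((∑ r1, if r1 < r then β r1 else 0) *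
        (∑ r2, if r2 < r then γ r2 else 0)) := by
  refine (three i x y hix hiy hxy
    (fun r r1 r2 => (α r * β r1 * γ r2) * (if r1 < r ∧ r2 < r then φ r else 0))).trans ?_
  refine congrArg _ (Finset.sum_congr rfl fun r _ => ?_)
  rw [Finset.sum_mul_sum, Finset.mul_sum]
  refine Finset.sum_congr rfl fun r1 _ => ?_
  rw [Finset.mul_sum]
  refine Finset.sum_congr rfl fun r2 _ => ?_
  by_cases h1 : r1 < r
  · by_cases h2 : r2 < r
    · rw [if_pos ⟨h1, h2⟩, if_pos h1, if_pos h2]
      ring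
    · rw [if_neg (fun hh => h2 hh.2), if_neg h2]
      ring
  · rw [if_neg (fun hh => h1 hh.1), if_neg h1]
    ring

/-- The indicator term. -/
noncomputable def ind {K : ℕ} (φ : Fin (2 * K) → ℝ) (i x y : Fin K) (u : Fin K → Fin (2 * K)) : ℝ :=
  if u x < u i ∧ u y < u i then φ (u i) else 0

theorem ind_update {K : ℕ} (φ : Fin (2 * K) → ℝ) (i x y z : Fin K) (hi : z ≠ i) (hx : z ≠ x)
    (hy : z ≠ y) (u : Fin K → Fin (2 * K)) (r : Fin (2 * K)) :
    ind φ i x y (Function.update u z r) = ind φ i x y u := by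
  unfold ind
  rw [Function.update_of_ne hi.symm, Function.update_of_ne hx.symm, Function.update_of_ne hy.symm]

theorem ind_symm {K : ℕ} (φ : Fin (2 * K) → ℝ) (i x y : Fin K) (u : Fin K → Fin (2 * K)) :
    ind φ i x y u = ind φ i y x u := by
  unfold ind
  by_cases h1 : u x < u i <;> by_cases h2 : u y < u i <;> simp [h1, h2]

theorem twoK_pos {K : ℕ} (hK : 1 ≤ K) : (0 : ℝ) < ((2 * K : ℕ) : ℝ) := by
  have : 0 < 2 * K := by omega
  exact_mod_cast this

theorem val0 {K : ℕ} (hK : 1 ≤ K) (φ : Fin (2 * K) → ℝ) (i x y : Fin K) (hix : i ≠ x)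
    (hiy : i ≠ y) (hxy : x ≠ y) :
    ∑ u, ind φ i x y u = ((2 * K : ℕ) : ℝ) ^ K * Lam K φ := by
  have h := tri φ i x y hix hiy hxy (fun _ => 1) (fun _ => 1) (fun _ => 1)
  have hR := twoK_pos hK
  have h2 : ∑ r, (1 : ℝ) * φ r * ((∑ r1, if r1 < r then (1 : ℝ) else 0) *
        (∑ r2, if r2 < r then (1 : ℝ) else 0)) = ((2 * K : ℕ) : ℝ) ^ 3 * Lam K φ := by
    unfold Lam
    rw [Finset.sum_div, Finset.mul_sum]
    refine Finset.sum_congr rfl fun r _ => ?_
    rw [sum_one_lt]
    push_cast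
    have hK' : (K : ℝ) ≠ 0 := by
      intro h0
      push_cast at hR
      rw [h0] at hR
      simp at hR
    field_simp
  rw [h2] at h
  have h3 : ((2 * K : ℕ) : ℝ) ^ 3 ≠ 0 := (pow_pos hR 3).ne'
  have h4 : ∑ u : Fin K → Fin (2 * K), (1 * 1 * 1 : ℝ) *
      (if u x < u i ∧ u y < u i then φ (u i) else 0) = ∑ u, ind φ i x y u := by
    refine Finset.sum_congr rfl fun u _ => ?_
    unfold ind
    ring
  rw [h4] at h
  have h5 : ((2 * K : ℕ) : ℝ) ^ 3 * ∑ u, ind φ i x y u =
      ((2 * K : ℕ) : ℝ) ^ 3 * (((2 * K : ℕ) : ℝ) ^ K * Lam K φ) := by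
    rw [h]
    ring
  exact mul_left_cancel₀ h3 h5

theorem val1 {K : ℕ} (hK : 1 ≤ K) (φ : Fin (2 * K) → ℝ) (i x y : Fin K) (hix : i ≠ x)
    (hiy : i ≠ y) (hxy : x ≠ y) :
    ∑ u, (sgn K (u x) * sgn K (u y)) * ind φ i x y u = ((2 * K : ℕ) : ℝ) ^ K * Gam K φ := by
  have h := tri φ i x y hix hiy hxy (fun _ => 1) (sgn K) (sgn K)
  have hR := twoK_pos hK
  have h2 : ∑ r, (1 : ℝ) * φ r * ((∑ r1, if r1 < r then sgn K r1 else 0) *
        (∑ r2, if r2 < r then sgn K r2 else 0)) = ((2 * K : ℕ) : ℝ) ^ 3 * Gam K φ := by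
    unfold Gam
    rw [Finset.sum_div, Finset.mul_sum]
    refine Finset.sum_congr rfl fun r _ => ?_
    rw [sum_sgn_lt]
    push_cast
    have hK' : (K : ℝ) ≠ 0 := by
      intro h0
      push_cast at hR
      rw [h0] at hR
      simp at hR
    field_simp
  rw [h2] at h
  have h3 : ((2 * K : ℕ) : ℝ) ^ 3 ≠ 0 := (pow_pos hR 3).ne'
  have h4 : ∑ u : Fin K → Fin (2 * K), (1 * sgn K (u x) * sgn K (u y) : ℝ) *
      (if u x < u i ∧ u y < u i then φ (u i) else 0) =
      ∑ u, (sgn K (u x) * sgn K (u y)) * ind φ i x y u := by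
    refine Finset.sum_congr rfl fun u _ => ?_
    unfold ind
    ring
  rw [h4] at h
  have h5 : ((2 * K : ℕ) : ℝ) ^ 3 * ∑ u, (sgn K (u x) * sgn K (u y)) * ind φ i x y u =
      ((2 * K : ℕ) : ℝ) ^ 3 * (((2 * K : ℕ) : ℝ) ^ K * Gam K φ) := by
    rw [h]
    ring
  exact mul_left_cancel₀ h3 h5

theorem val2 {K : ℕ} (hK : 1 ≤ K) (φ : Fin (2 * K) → ℝ) (hφ : ∀ r, 0 ≤ φ r) (i x y : Fin K)
    (hix : i ≠ x) (hiy : i ≠ y) (hxy : x ≠ y) :
    -(((2 * K : ℕ) : ℝ) ^ K * The K φ) ≤ ∑ u, (sgn K (u i) * sgn K (u x)) * ind φ i x y u := by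
  have h := tri φ i x y hix hiy hxy (sgn K) (sgn K) (fun _ => 1)
  have hR := twoK_pos hK
  have h2 : -(((2 * K : ℕ) : ℝ) ^ 3 * The K φ) ≤
      ∑ r, sgn K r * φ r * ((∑ r1, if r1 < r then sgn K r1 else 0) *
        (∑ r2, if r2 < r then (1 : ℝ) else 0)) := by
    unfold The
    rw [Finset.sum_div, Finset.mul_sum, ← Finset.sum_neg_distrib]
    refine Finset.sum_le_sum fun r _ => ?_
    rw [sum_sgn_lt, sum_one_lt]
    push_cast
    have hK' : (K : ℝ) ≠ 0 := by
      intro h0
      push_cast at hR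
      rw [h0] at hR
      simp at hR
    have h6 : (2 * (K : ℝ)) ^ 3 * (φ r * (((r : ℕ) : ℝ) / (2 * K)) * GG K r / (2 * K)) =
        φ r * (2 * K * GG K r * ((r : ℕ) : ℝ)) := by
      field_simp
    rw [h6]
    have h7 : 0 ≤ φ r * (2 * K * GG K r * ((r : ℕ) : ℝ)) := by
      have := hφ r
      have := GG_nonneg K r
      positivity
    have h8 := le_sgn K r
    calc -(φ r * (2 * K * GG K r * ((r : ℕ) : ℝ)))
        = (-1) * (φ r * (2 * K * GG K r * ((r : ℕ) : ℝ))) := by ring
      _ ≤ sgn K r * (φ r * (2 * K * GG K r * ((r : ℕ) : ℝ))) :=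
          mul_le_mul_of_nonneg_right h8 h7
      _ = _ := by ring
  have h4 : ∑ u : Fin K → Fin (2 * K), (sgn K (u i) * sgn K (u x) * 1 : ℝ) *
      (if u x < u i ∧ u y < u i then φ (u i) else 0) =
      ∑ u, (sgn K (u i) * sgn K (u x)) * ind φ i x y u := by
    refine Finset.sum_congr rfl fun u _ => ?_
    unfold ind
    ring
  rw [h4] at h
  have h3 : 0 < ((2 * K : ℕ) : ℝ) ^ 3 := pow_pos hR 3
  have h9 : 0 < ((2 * K : ℕ) : ℝ) ^ K := pow_pos hR K
  have h5 : ((2 * K : ℕ) : ℝ) ^ 3 * -(((2 * K : ℕ) : ℝ) ^ K * The K φ) ≤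
      ((2 * K : ℕ) : ℝ) ^ 3 * ∑ u, (sgn K (u i) * sgn K (u x)) * ind φ i x y u := by
    rw [h]
    calc ((2 * K : ℕ) : ℝ) ^ 3 * -(((2 * K : ℕ) : ℝ) ^ K * The K φ)
        = ((2 * K : ℕ) : ℝ) ^ K * -(((2 * K : ℕ) : ℝ) ^ 3 * The K φ) := by ring
      _ ≤ _ := mul_le_mul_of_nonneg_left h2 h9.le
  exact le_of_mul_le_mul_left h5 h3

theorem val2' {K : ℕ} (hK : 1 ≤ K) (φ : Fin (2 * K) → ℝ) (hφ : ∀ r, 0 ≤ φ r) (i x y : Fin K)
    (hix : i ≠ x) (hiy : i ≠ y) (hxy : x ≠ y) :
    -(((2 * K : ℕ) : ℝ) ^ K * The K φ) ≤ ∑ u, (sgn K (u i) * sgn K (u y)) * ind φ i x y u := by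
  have h := val2 hK φ hφ i y x hiy hix hxy.symm
  refine h.trans (le_of_eq ?_)
  refine Finset.sum_congr rfl fun u _ => ?_
  rw [ind_symm]

theorem pairs_inj {K p : ℕ} {a b : Fin p → Fin K} (hab : Function.Injective (Sum.elim a b)) :
    (∀ l l', a l = a l' → l = l') ∧ (∀ l l', b l = b l' → l = l') ∧ (∀ l l', a l ≠ b l') := by
  refine ⟨fun l l' hh => ?_, fun l l' hh => ?_, fun l l' hh => ?_⟩
  · have := hab (a₁ := Sum.inl l) (a₂ := Sum.inl l') (by simpa using hh)
    simpa using this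
  · have := hab (a₁ := Sum.inr l) (a₂ := Sum.inr l') (by simpa using hh)
    simpa using this
  · have := hab (a₁ := Sum.inl l) (a₂ := Sum.inr l') (by simpa using hh)
    simp at this

/-- No pair inside `{i, x, y}`. -/
theorem caseA (h : S_mrem) {K p : ℕ} (θ : ℝ) (a b : Fin p → Fin K)
    (hab : Function.Injective (Sum.elim a b)) (φ : Fin (2 * K) → ℝ) (i x y : Fin K)
    (hno : ∀ l, ¬ ((a l = i ∨ a l = x ∨ a l = y) ∧ (b l = i ∨ b l = x ∨ b l = y))) :
    ∑ u, W1 K p θ a b u * ind φ i x y u = ∑ u, ind φ i x y u := by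
  refine h K (2 * K) p θ (sgn K) (sum_sgn K) a b hab univ (ind φ i x y) fun l _ => ?_
  by_cases h1 : a l = i ∨ a l = x ∨ a l = y
  · right
    have h2 : ¬ (b l = i ∨ b l = x ∨ b l = y) := fun hh => hno l ⟨h1, hh⟩
    push Not at h2
    exact fun u r => ind_update φ i x y _ h2.1 h2.2.1 h2.2.2 u r
  · left
    push Not at h1
    exact fun u r => ind_update φ i x y _ h1.1 h1.2.1 h1.2.2 u r

theorem pigeon {K : ℕ} (A B C D i x y : Fin K) (h1 : A ≠ B) (h2 : A ≠ C) (h3 : A ≠ D)
    (h4 : B ≠ C) (h5 : B ≠ D) (h6 : C ≠ D) (hA : A = i ∨ A = x ∨ A = y)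
    (hB : B = i ∨ B = x ∨ B = y) (hC : C = i ∨ C = x ∨ C = y) (hD : D = i ∨ D = x ∨ D = y) :
    False := by
  have hs : ({A, B, C, D} : Finset (Fin K)) ⊆ {i, x, y} := by
    intro z hz
    simp only [Finset.mem_insert, Finset.mem_singleton] at hz ⊢
    rcases hz with rfl | rfl | rfl | rfl
    · exact hA
    · exact hB
    · exact hC
    · exact hD
  have hc := Finset.card_le_card hs
  have h7 : ({A, B, C, D} : Finset (Fin K)).card = 4 := by
    rw [Finset.card_insert_of_notMem, Finset.card_insert_of_notMem,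
      Finset.card_insert_of_notMem, Finset.card_singleton]
    · simpa using h6
    · simp [h4, h5]
    · simp [h1, h2, h3]
  have h8 : ({i, x, y} : Finset (Fin K)).card ≤ 3 := Finset.card_le_three
  omega

/-- One pair inside `{i, x, y}`. -/
theorem caseB (h : S_mrem) {K p : ℕ} (θ : ℝ) (a b : Fin p → Fin K)
    (hab : Function.Injective (Sum.elim a b)) (φ : Fin (2 * K) → ℝ) (i x y : Fin K)
    (l0 : Fin p) (ha0 : a l0 = i ∨ a l0 = x ∨ a l0 = y) (hb0 : b l0 = i ∨ b l0 = x ∨ b l0 = y) :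
    ∑ u, W1 K p θ a b u * ind φ i x y u = ∑ u, ind φ i x y u +
      θ * ∑ u, (sgn K (u (a l0)) * sgn K (u (b l0))) * ind φ i x y u := by
  obtain ⟨ha, hb, hne⟩ := pairs_inj hab
  have h2 := h K (2 * K) p θ (sgn K) (sum_sgn K) a b hab (univ.erase l0)
    (fun u => (1 + θ * sgn K (u (a l0)) * sgn K (u (b l0))) * ind φ i x y u) (by
      intro l hl
      have hll : l ≠ l0 := Finset.ne_of_mem_erase hl
      by_cases h1 : a l = i ∨ a l = x ∨ a l = y
      · right
        have h2 : ¬ (b l = i ∨ b l = x ∨ b l = y) := fun hh =>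
          pigeon (a l) (b l) (a l0) (b l0) i x y (hne _ _) (fun h3 => hll (ha _ _ h3)) (hne _ _)
            (fun h3 => hne _ _ h3.symm) (fun h3 => hll (hb _ _ h3)) (hne _ _) h1 hh ha0 hb0
        push Not at h2
        intro u r
        show (1 + θ * sgn K ((Function.update u (b l) r) (a l0)) *
          sgn K ((Function.update u (b l) r) (b l0))) * ind φ i x y (Function.update u (b l) r) = _
        rw [ind_update φ i x y _ h2.1 h2.2.1 h2.2.2 u r, Function.update_of_ne (hne _ _),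
          Function.update_of_ne (fun h3 => hll (hb _ _ h3).symm)]
      · left
        push Not at h1
        intro u r
        show (1 + θ * sgn K ((Function.update u (a l) r) (a l0)) *
          sgn K ((Function.update u (a l) r) (b l0))) * ind φ i x y (Function.update u (a l) r) = _
        rw [ind_update φ i x y _ h1.1 h1.2.1 h1.2.2 u r,
          Function.update_of_ne (fun h3 => hll (ha _ _ h3).symm),
          Function.update_of_ne (fun h3 => hne _ _ h3.symm)])
  have h3 : ∀ u : Fin K → Fin (2 * K), W1 K p θ a b u * ind φ i x y u =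
      (∏ l' ∈ univ.erase l0, (1 + θ * sgn K (u (a l')) * sgn K (u (b l')))) *
        ((1 + θ * sgn K (u (a l0)) * sgn K (u (b l0))) * ind φ i x y u) := by
    intro u
    unfold W1
    rw [← Finset.mul_prod_erase univ _ (Finset.mem_univ l0)]
    ring
  rw [Finset.sum_congr rfl fun u _ => h3 u, h2, Finset.mul_sum, ← Finset.sum_add_distrib]
  refine Finset.sum_congr rfl fun u _ => ?_
  ring

theorem e1 (h : S_mrem) : S_e1 := by
  intro K p θ a b φ hK hab h0 h1 hφ x y hxy
  obtain ⟨ha, hb, hne⟩ := pairs_inj hab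
  have hR := twoK_pos hK
  have hRK : 0 < ((2 * K : ℕ) : ℝ) ^ K := pow_pos hR K
  have hGam : 0 ≤ Gam K φ := by
    unfold Gam
    refine div_nonneg (Finset.sum_nonneg fun r _ => ?_) (by positivity)
    have := hφ r
    positivity
  have hThe : 0 ≤ The K φ := by
    unfold The
    refine div_nonneg (Finset.sum_nonneg fun r _ => ?_) (by positivity)
    have := hφ r
    have := GG_nonneg K r
    positivity
  -- exchange sums
  have hsw : ∑ u, W1 K p θ a b u * ∑ i : Fin K, (if u x < u i ∧ u y < u i then φ (u i) else 0) =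
      ∑ i : Fin K, ∑ u, W1 K p θ a b u * ind φ i x y u := by
    simp_rw [Finset.mul_sum]
    rw [Finset.sum_comm]
    rfl
  have hzx : ∑ u, W1 K p θ a b u * ind φ x x y u = 0 := by
    refine Finset.sum_eq_zero fun u _ => ?_
    unfold ind
    rw [if_neg (fun hh => lt_irrefl _ hh.1), mul_zero]
  have hzy : ∑ u, W1 K p θ a b u * ind φ y x y u = 0 := by
    refine Finset.sum_eq_zero fun u _ => ?_
    unfold ind
    rw [if_neg (fun hh => lt_irrefl _ hh.2), mul_zero]
  have hsplit : ∑ i : Fin K, ∑ u, W1 K p θ a b u * ind φ i x y u =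
      ∑ i ∈ (univ.erase x).erase y, ∑ u, W1 K p θ a b u * ind φ i x y u := by
    rw [← Finset.add_sum_erase univ _ (Finset.mem_univ x), hzx, zero_add,
      ← Finset.add_sum_erase (univ.erase x) _ (Finset.mem_erase.mpr ⟨hxy.symm, Finset.mem_univ y⟩),
      hzy, zero_add]
  have hcard : (((univ : Finset (Fin K)).erase x).erase y).card = K - 2 := by
    rw [Finset.card_erase_of_mem (Finset.mem_erase.mpr ⟨hxy.symm, Finset.mem_univ y⟩),
      Finset.card_erase_of_mem (Finset.mem_univ x), Finset.card_univ, Fintype.card_fin]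
    omega
  have hK2 : 2 ≤ K := by
    have h2 : ({x, y} : Finset (Fin K)).card = 2 := Finset.card_pair hxy
    have h3 := Finset.card_le_univ ({x, y} : Finset (Fin K))
    rw [Fintype.card_fin, h2] at h3
    exact h3
  have hcardR : ((((univ : Finset (Fin K)).erase x).erase y).card : ℝ) = (K : ℝ) - 2 := by
    rw [hcard, Nat.cast_sub hK2]
    norm_num
  have hKR : (0 : ℝ) ≤ (K : ℝ) - 2 := by
    have : (2 : ℝ) ≤ K := by exact_mod_cast hK2
    linarith
  -- first part
  have hP1 : (∃ l, (x = a l ∧ y = b l) ∨ (x = b l ∧ y = a l)) →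
      ((2 * K : ℕ) : ℝ) ^ K * (((K : ℝ) - 2) * (Lam K φ + θ * Gam K φ)) ≤
      ∑ u, W1 K p θ a b u * ∑ i : Fin K, (if u x < u i ∧ u y < u i then φ (u i) else 0) := by
    rintro ⟨l0, hl0⟩
    rw [hsw, hsplit]
    have hval : ∀ i ∈ ((univ : Finset (Fin K)).erase x).erase y,
        ∑ u, W1 K p θ a b u * ind φ i x y u =
        ((2 * K : ℕ) : ℝ) ^ K * (Lam K φ + θ * Gam K φ) := by
      intro i hi
      have hiy : i ≠ y := Finset.ne_of_mem_erase hi
      have hix : i ≠ x := Finset.ne_of_mem_erase (Finset.mem_of_mem_erase hi)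
      rcases hl0 with ⟨e1, e2⟩ | ⟨e1, e2⟩
      · rw [caseB h θ a b hab φ i x y l0 (Or.inr (Or.inl e1.symm)) (Or.inr (Or.inr e2.symm)),
          ← e1, ← e2, val0 hK φ i x y hix hiy hxy, val1 hK φ i x y hix hiy hxy]
        ring
      · rw [caseB h θ a b hab φ i x y l0 (Or.inr (Or.inr e2.symm)) (Or.inr (Or.inl e1.symm)),
          ← e1, ← e2, val0 hK φ i x y hix hiy hxy]
        have h5 : ∑ u, (sgn K (u y) * sgn K (u x)) * ind φ i x y u =
            ((2 * K : ℕ) : ℝ) ^ K * Gam K φ := by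
          rw [← val1 hK φ i x y hix hiy hxy]
          refine Finset.sum_congr rfl fun u _ => ?_
          ring
        rw [h5]
        ring
    rw [Finset.sum_congr rfl hval, Finset.sum_const, nsmul_eq_mul, hcardR]
    refine le_of_eq ?_
    ring
  refine ⟨hP1, ?_⟩
  by_cases hex : ∃ l, (x = a l ∧ y = b l) ∨ (x = b l ∧ y = a l)
  · refine le_trans ?_ (hP1 hex)
    refine mul_le_mul_of_nonneg_left ?_ hRK.le
    have h5 : 0 ≤ θ * The K φ := mul_nonneg h0 hThe
    have h6 : 0 ≤ ((K : ℝ) - 2) * (θ * Gam K φ) := mul_nonneg hKR (mul_nonneg h0 hGam)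
    nlinarith
  · rw [hsw, hsplit]
    -- the partners of `x` and `y`
    let Px : Finset (Fin K) := univ.filter fun i => ∃ l, (a l = i ∧ b l = x) ∨ (a l = x ∧ b l = i)
    let Py : Finset (Fin K) := univ.filter fun i => ∃ l, (a l = i ∧ b l = y) ∨ (a l = y ∧ b l = i)
    have hone : ∀ z : Fin K, (univ.filter fun i => ∃ l, (a l = i ∧ b l = z) ∨
        (a l = z ∧ b l = i)).card ≤ 1 := by
      intro z
      refine Finset.card_le_one.mpr ?_
      intro i hi j hj
      obtain ⟨l, hl⟩ := (Finset.mem_filter.mp hi).2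
      obtain ⟨l', hl'⟩ := (Finset.mem_filter.mp hj).2
      rcases hl with ⟨e1, e2⟩ | ⟨e1, e2⟩
      · rcases hl' with ⟨e3, e4⟩ | ⟨e3, e4⟩
        · have := hb l l' (e2.trans e4.symm)
          rw [← e1, ← e3, this]
        · exact absurd (e3.trans e2.symm) (hne l' l)
      · rcases hl' with ⟨e3, e4⟩ | ⟨e3, e4⟩
        · exact absurd (e1.trans e4.symm) (hne l l')
        · have := ha l l' (e1.trans e3.symm)
          rw [← e2, ← e4, this]
    have hval : ∀ i ∈ ((univ : Finset (Fin K)).erase x).erase y,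
        ((2 * K : ℕ) : ℝ) ^ K * (Lam K φ - θ * The K φ * (if i ∈ Px ∪ Py then 1 else 0)) ≤
        ∑ u, W1 K p θ a b u * ind φ i x y u := by
      intro i hi
      have hiy : i ≠ y := Finset.ne_of_mem_erase hi
      have hix : i ≠ x := Finset.ne_of_mem_erase (Finset.mem_of_mem_erase hi)
      by_cases hl : ∃ l, (a l = i ∨ a l = x ∨ a l = y) ∧ (b l = i ∨ b l = x ∨ b l = y)
      · obtain ⟨l0, ha0, hb0⟩ := hl
        have hmem : i ∈ Px ∪ Py ∧ -(((2 * K : ℕ) : ℝ) ^ K * The K φ) ≤
            ∑ u, (sgn K (u (a l0)) * sgn K (u (b l0))) * ind φ i x y u := by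
          have hsy : ∀ z w : Fin K, ∑ u, (sgn K (u z) * sgn K (u w)) * ind φ i x y u =
              ∑ u, (sgn K (u w) * sgn K (u z)) * ind φ i x y u := by
            intro z w
            refine Finset.sum_congr rfl fun u _ => ?_
            ring
          have hv := val2 hK φ hφ i x y hix hiy hxy
          have hv' := val2' hK φ hφ i x y hix hiy hxy
          rcases ha0 with e1 | e1 | e1
          · rcases hb0 with e2 | e2 | e2
            · exact absurd (e1.trans e2.symm) (hne l0 l0)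
            · refine ⟨Finset.mem_union_left _ (Finset.mem_filter.mpr
                ⟨Finset.mem_univ _, l0, Or.inl ⟨e1, e2⟩⟩), ?_⟩
              rw [e1, e2]
              exact hv
            · refine ⟨Finset.mem_union_right _ (Finset.mem_filter.mpr
                ⟨Finset.mem_univ _, l0, Or.inl ⟨e1, e2⟩⟩), ?_⟩
              rw [e1, e2]
              exact hv'
          · rcases hb0 with e2 | e2 | e2
            · refine ⟨Finset.mem_union_left _ (Finset.mem_filter.mpr
                ⟨Finset.mem_univ _, l0, Or.inr ⟨e1, e2⟩⟩), ?_⟩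
              rw [e1, e2, hsy]
              exact hv
            · exact absurd (e1.trans e2.symm) (hne l0 l0)
            · exact absurd ⟨l0, Or.inl ⟨e1.symm, e2.symm⟩⟩ hex
          · rcases hb0 with e2 | e2 | e2
            · refine ⟨Finset.mem_union_right _ (Finset.mem_filter.mpr
                ⟨Finset.mem_univ _, l0, Or.inr ⟨e1, e2⟩⟩), ?_⟩
              rw [e1, e2, hsy]
              exact hv'
            · exact absurd ⟨l0, Or.inr ⟨e2.symm, e1.symm⟩⟩ hex
            · exact absurd (e1.trans e2.symm) (hne l0 l0)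
        rw [if_pos hmem.1, caseB h θ a b hab φ i x y l0 ha0 hb0, val0 hK φ i x y hix hiy hxy]
        have h5 := mul_le_mul_of_nonneg_left hmem.2 h0
        linarith
      · push Not at hl
        rw [caseA h θ a b hab φ i x y (fun l hh => by
          have := hl l hh.1
          rcases hh.2 with e2 | e2 | e2
          · exact this.1 e2
          · exact this.2.1 e2
          · exact this.2.2 e2), val0 hK φ i x y hix hiy hxy]
        refine mul_le_mul_of_nonneg_left ?_ hRK.le
        have h5 : 0 ≤ θ * The K φ := mul_nonneg h0 hThe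
        split_ifs
        · linarith
        · linarith
    refine le_trans ?_ (Finset.sum_le_sum hval)
    rw [← Finset.mul_sum]
    refine mul_le_mul_of_nonneg_left ?_ hRK.le
    rw [Finset.sum_sub_distrib, Finset.sum_const, nsmul_eq_mul, hcardR, ← Finset.mul_sum]
    have h5 : 0 ≤ θ * The K φ := mul_nonneg h0 hThe
    have h6 : ∑ i ∈ ((univ : Finset (Fin K)).erase x).erase y,
        (if i ∈ Px ∪ Py then (1 : ℝ) else 0) ≤ 2 := by
      rw [Finset.sum_ite_mem, Finset.sum_const, nsmul_eq_mul, mul_one]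
      have h7 : ((((univ : Finset (Fin K)).erase x).erase y) ∩ (Px ∪ Py)).card ≤ 2 := by
        refine le_trans (Finset.card_le_card Finset.inter_subset_right) ?_
        refine le_trans (Finset.card_union_le _ _) ?_
        have := hone x
        have := hone y
        simp only [Px, Py]
        omega
      exact_mod_cast h7
    nlinarith

end Pool.Agent.H51.TK
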