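import Pool.Agent.H666.TK.SpecC

/-!
# Auxiliary sums over time profiles
-/

set_option autoImplicit false

open Finset
open scoped Classical

namespace Pool.Agent.H51.TK

open Pool.Agent.H666.TK

theorem avg {ι κ : Type} [Fintype ι] [DecidableEq ι] [Fintype κ] (j : ι) (Φ : (ι → κ) → ℝ) :
    (Fintype.card κ : ℝ) * ∑ u, Φ u = ∑ u : ι → κ, ∑ r : κ, Φ (Function.update u j r) := by
  let e : (ι → κ) × κ ≃ (ι → κ) × κ :=
    { toFun := fun p => (Function.update p.1 j p.2, p.1 j)
      invFun := fun p => (Function.update p.1 j p.2, p.1 j)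
      left_inv := by
        intro p
        simp
      right_inv := by
        intro p
        simp }
  have h1 : ∑ u : ι → κ, ∑ r : κ, Φ (Function.update u j r) = ∑ p : (ι → κ) × κ, Φ (e p).1 := by
    rw [Fintype.sum_prod_type]
    rfl
  rw [h1, Equiv.sum_comp e (fun p => Φ p.1), Fintype.sum_prod_type]
  simp [Finset.mul_sum]

theorem one {K R : ℕ} (i : Fin K) (g : Fin R → ℝ) :
    (R : ℝ) * ∑ u : Fin K → Fin R, g (u i) = (R : ℝ) ^ K * ∑ r, g r := by
  have h := avg (ι := Fin K) (κ := Fin R) i (fun u => g (u i))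
  rw [Fintype.card_fin] at h
  rw [h]
  simp

theorem two {K R : ℕ} (i x : Fin K) (hix : i ≠ x) (g : Fin R → Fin R → ℝ) :
    (R : ℝ) ^ 2 * ∑ u : Fin K → Fin R, g (u i) (u x) = (R : ℝ) ^ K * ∑ r, ∑ r1, g r r1 := by
  have h := avg (ι := Fin K) (κ := Fin R) x (fun u => g (u i) (u x))
  rw [Fintype.card_fin] at h
  have h2 : ∑ u : Fin K → Fin R, ∑ r : Fin R,
      g ((Function.update u x r) i) ((Function.update u x r) x) =
      ∑ u : Fin K → Fin R, (fun r0 => ∑ r : Fin R, g r0 r) (u i) := by
    refine Finset.sum_congr rfl fun u _ => ?_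
    refine Finset.sum_congr rfl fun r _ => ?_
    rw [Function.update_self, Function.update_of_ne hix]
  rw [h2] at h
  rw [pow_two, mul_assoc, h, one i (fun r0 => ∑ r : Fin R, g r0 r)]

theorem three {K R : ℕ} (i x y : Fin K) (hix : i ≠ x) (hiy : i ≠ y) (hxy : x ≠ y)
    (f : Fin R → Fin R → Fin R → ℝ) :
    (R : ℝ) ^ 3 * ∑ u : Fin K → Fin R, f (u i) (u x) (u y) =
      (R : ℝ) ^ K * ∑ r, ∑ r1, ∑ r2, f r r1 r2 := by
  have h := avg (ι := Fin K) (κ := Fin R) y (fun u => f (u i) (u x) (u y))
  rw [Fintype.card_fin] at h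
  have h2 : ∑ u : Fin K → Fin R, ∑ r : Fin R,
      f ((Function.update u y r) i) ((Function.update u y r) x) ((Function.update u y r) y) =
      ∑ u : Fin K → Fin R, (fun r0 r1 => ∑ r : Fin R, f r0 r1 r) (u i) (u x) := by
    refine Finset.sum_congr rfl fun u _ => ?_
    refine Finset.sum_congr rfl fun r _ => ?_
    rw [Function.update_self, Function.update_of_ne hiy, Function.update_of_ne hxy]
  rw [h2] at h
  rw [pow_succ, mul_assoc, h, two i x hix (fun r0 r1 => ∑ r : Fin R, f r0 r1 r)]

/-- Partial sums of the sign. -/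
theorem sgn_range (K n : ℕ) :
    ∑ m ∈ range n, (if m < K then (1 : ℝ) else -1) = min (n : ℝ) (2 * K - n) := by
  induction n with
  | zero => simp
  | succ n ih =>
    rw [Finset.sum_range_succ, ih]
    by_cases h : n < K
    · rw [if_pos h]
      have h1 : (n : ℝ) + 1 ≤ K := by exact_mod_cast h
      rw [min_eq_left (by linarith), min_eq_left (by push_cast; linarith)]
      push_cast
      ring
    · rw [if_neg h]
      have h1 : (K : ℝ) ≤ n := by exact_mod_cast (not_lt.mp h)
      rw [min_eq_right (by linarith), min_eq_right (by push_cast; linarith)]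
      push_cast
      ring

theorem sum_lt_fin {R : ℕ} (r : Fin R) (g : ℕ → ℝ) :
    ∑ r1 : Fin R, (if r1 < r then g (r1 : ℕ) else 0) = ∑ m ∈ range (r : ℕ), g m := by
  rw [← Finset.sum_filter]
  refine Finset.sum_bij (fun (a : Fin R) _ => (a : ℕ)) ?_ ?_ ?_ ?_
  · intro a ha
    rw [Finset.mem_filter] at ha
    exact Finset.mem_range.mpr ha.2
  · intro a _ b _ h
    exact Fin.ext h
  · intro m hm
    rw [Finset.mem_range] at hm
    exact ⟨⟨m, hm.trans r.isLt⟩, Finset.mem_filter.mpr ⟨Finset.mem_univ _, hm⟩, rfl⟩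
  · intro a _
    rfl

theorem sum_sgn_lt (K : ℕ) (r : Fin (2 * K)) :
    ∑ r1 : Fin (2 * K), (if r1 < r then sgn K r1 else 0) = (2 * K) * GG K r := by
  have h := sum_lt_fin r (fun m => if m < K then (1 : ℝ) else -1)
  have hK : (0 : ℝ) < 2 * K := by
    have := r.isLt
    have h2 : 0 < 2 * K := by omega
    exact_mod_cast h2
  unfold sgn GG
  rw [h, sgn_range, ← mul_div_assoc, mul_div_cancel_left₀ _ hK.ne']

theorem sum_one_lt {R : ℕ} (r : Fin R) :
    ∑ r1 : Fin R, (if r1 < r then (1 : ℝ) else 0) = (r : ℕ) := by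
  have h := sum_lt_fin r (fun _ => (1 : ℝ))
  rw [h]
  simp

theorem sum_sgn (K : ℕ) : ∑ r : Fin (2 * K), sgn K r = 0 := by
  have h : ∑ r : Fin (2 * K), sgn K r = ∑ m ∈ range (2 * K), (if m < K then (1 : ℝ) else -1) := by
    rw [← Fin.sum_univ_eq_sum_range (fun m => if m < K then (1 : ℝ) else -1)]
    rfl
  rw [h, sgn_range]
  push_cast
  rw [sub_self, min_eq_right (by positivity)]

theorem sgn_sq (K : ℕ) (r : Fin (2 * K)) : sgn K r * sgn K r = 1 := by
  unfold sgn
  split_ifs <;> norm_num

theorem sgn_le (K : ℕ) (r : Fin (2 * K)) : sgn K r ≤ 1 := by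
  unfold sgn
  split_ifs <;> norm_num

theorem le_sgn (K : ℕ) (r : Fin (2 * K)) : -1 ≤ sgn K r := by
  unfold sgn
  split_ifs <;> norm_num

theorem GG_nonneg (K : ℕ) (r : Fin (2 * K)) : 0 ≤ GG K r := by
  unfold GG
  have h : ((r : ℕ) : ℝ) ≤ 2 * K := by exact_mod_cast r.isLt.le
  refine div_nonneg (le_min (by positivity) (by linarith)) (by positivity)

theorem factor_pos (K : ℕ) (θ : ℝ) (h0 : 0 ≤ θ) (h1 : θ < 1) (r r' : Fin (2 * K)) :
    0 < 1 + θ * sgn K r * sgn K r' := by
  have h2 : -1 ≤ sgn K r * sgn K r' := by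
    unfold sgn
    split_ifs <;> norm_num
  nlinarith

theorem w1 (h : S_mrem) : S_w1 := by
  intro K p θ a b hK hab h0 h1
  have hR : (0 : ℝ) < 2 * K := by positivity
  have ha : ∀ l l', a l = a l' → l = l' := fun l l' hh => by
    have := hab (a₁ := Sum.inl l) (a₂ := Sum.inl l') (by simpa using hh)
    simpa using this
  have hb : ∀ l l', b l = b l' → l = l' := fun l l' hh => by
    have := hab (a₁ := Sum.inr l) (a₂ := Sum.inr l') (by simpa using hh)
    simpa using this
  have hne : ∀ l l', a l ≠ b l' := fun l l' hh => by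
    have := hab (a₁ := Sum.inl l) (a₂ := Sum.inr l') (by simpa using hh)
    simp at this
  have hpos : ∀ u, 0 < W1 K p θ a b u := by
    intro u
    unfold W1
    exact Finset.prod_pos fun l _ => factor_pos K θ h0 h1 _ _
  have hsum : ∑ u, W1 K p θ a b u = ((2 * K : ℕ) : ℝ) ^ K := by
    have := h K (2 * K) p θ (sgn K) (sum_sgn K) a b hab univ (fun _ => 1) (fun l _ => Or.inl fun _ _ => rfl)
    unfold W1
    simpa using this
  refine ⟨hpos, hsum, ?_, ?_⟩
  · have hcorr : ∀ l, ∑ u, W1 K p θ a b u * (sgn K (u (a l)) * sgn K (u (b l))) =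
        ((2 * K : ℕ) : ℝ) ^ K * θ := by
      intro l
      have h2 := h K (2 * K) p θ (sgn K) (sum_sgn K) a b hab (univ.erase l)
        (fun u => sgn K (u (a l)) * sgn K (u (b l)) + θ) (by
          intro l' hl'
          have hll : l' ≠ l := Finset.ne_of_mem_erase hl'
          left
          intro u r
          have e1 : (Function.update u (a l') r) (a l) = u (a l) :=
            Function.update_of_ne (fun hh => hll (ha _ _ hh).symm) _ _
          have e2 : (Function.update u (a l') r) (b l) = u (b l) :=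
            Function.update_of_ne (fun hh => hne _ _ hh.symm) _ _
          show sgn K ((Function.update u (a l') r) (a l)) * sgn K ((Function.update u (a l') r) (b l)) + θ = _
          rw [e1, e2])
      have h3 : ∀ u : Fin K → Fin (2 * K), W1 K p θ a b u * (sgn K (u (a l)) * sgn K (u (b l))) =
          (∏ l' ∈ univ.erase l, (1 + θ * sgn K (u (a l')) * sgn K (u (b l')))) *
            (sgn K (u (a l)) * sgn K (u (b l)) + θ) := by
        intro u
        unfold W1
        rw [← Finset.mul_prod_erase univ _ (Finset.mem_univ l)]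
        have e1 := sgn_sq K (u (a l))
        have e2 := sgn_sq K (u (b l))
        have e3 : (1 + θ * sgn K (u (a l)) * sgn K (u (b l))) * (sgn K (u (a l)) * sgn K (u (b l))) =
            sgn K (u (a l)) * sgn K (u (b l)) + θ := by
          calc _ = sgn K (u (a l)) * sgn K (u (b l)) +
              θ * (sgn K (u (a l)) * sgn K (u (a l))) * (sgn K (u (b l)) * sgn K (u (b l))) := by ring
            _ = _ := by rw [e1, e2]; ring
        rw [← e3]
        ring
      rw [Finset.sum_congr rfl fun u _ => h3 u, h2, Finset.sum_add_distrib]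
      have h4 := two (K := K) (R := 2 * K) (a l) (b l) (hne l l)
        (fun r r' => sgn K r * sgn K r')
      have h5 : ∑ r : Fin (2 * K), ∑ r1 : Fin (2 * K), sgn K r * sgn K r1 = 0 := by
        rw [← Finset.sum_mul_sum, sum_sgn, zero_mul]
      rw [h5, mul_zero] at h4
      have h6 : ∑ u : Fin K → Fin (2 * K), sgn K (u (a l)) * sgn K (u (b l)) = 0 := by
        rcases mul_eq_zero.mp h4 with h7 | h7
        · exfalso
          have : (((2 * K : ℕ) : ℝ)) ^ 2 ≠ 0 := by
            push_cast
            positivity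
          exact this h7
        · exact h7
      rw [h6, zero_add]
      simp
    calc ∑ u, W1 K p θ a b u * Real.log (W1 K p θ a b u)
        ≤ ∑ u, W1 K p θ a b u * ∑ l, θ * (sgn K (u (a l)) * sgn K (u (b l))) := by
          refine Finset.sum_le_sum fun u _ => ?_
          refine mul_le_mul_of_nonneg_left ?_ (hpos u).le
          unfold W1
          rw [Real.log_prod (fun l _ => (factor_pos K θ h0 h1 _ _).ne')]
          refine Finset.sum_le_sum fun l _ => ?_
          have := Real.log_le_sub_one_of_pos (factor_pos K θ h0 h1 (u (a l)) (u (b l)))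
          linarith
      _ = ∑ l, θ * ∑ u, W1 K p θ a b u * (sgn K (u (a l)) * sgn K (u (b l))) := by
          simp_rw [Finset.mul_sum]
          rw [Finset.sum_comm]
          refine Finset.sum_congr rfl fun l _ => ?_
          refine Finset.sum_congr rfl fun u _ => ?_
          ring
      _ = ((2 * K : ℕ) : ℝ) ^ K * (θ ^ 2 * p) := by
          rw [Finset.sum_congr rfl fun l _ => by rw [hcorr l]]
          rw [Finset.sum_const, Finset.card_univ, Fintype.card_fin, nsmul_eq_mul]
          ring
      _ ≤ _ := le_refl _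
  · intro ψ i
    have h2 := h K (2 * K) p θ (sgn K) (sum_sgn K) a b hab univ
        (fun u => ψ (u i)) (by
          intro l _
          by_cases hi : a l = i
          · right
            intro u r
            have hbi : i ≠ b l := fun hh => hne l l (hi.trans hh)
            show ψ ((Function.update u (b l) r) i) = _
            rw [Function.update_of_ne hbi]
          · left
            intro u r
            show ψ ((Function.update u (a l) r) i) = _
            rw [Function.update_of_ne (fun hh => hi hh.symm)])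
    have h3 := one (K := K) (R := 2 * K) i ψ
    have h4 : ∑ u, W1 K p θ a b u * ψ (u i) = ∑ u : Fin K → Fin (2 * K), ψ (u i) := h2
    rw [h4]
    have h5 : (((2 * K : ℕ) : ℝ)) = 2 * K := by push_cast; ring
    rw [h5] at h3 ⊢
    field_simp
    linarith

end Pool.Agent.H51.TK
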